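import Pool.Agent.T2h20.UT.Stm

/-! Task A4 (helper78): assembly in rank 4. -/

namespace Pool.Agent.T2h20.UT

open Matrix

theorem t_A4 (hj : S_J) (hb : S_B) (hev : S_EV) (hod : S_OD) : S_A4 := by
  intro a b c d k σ hdet hσ hk hbσ hc hcd
  obtain ⟨X1, Y1, t1, s1, t2, s2, hXY1, hYX1⟩ := hev a b c d k σ hdet hσ hbσ
  obtain ⟨X, Y, X', Y', p, q, l, u, hXY, hYX', hYX⟩ := hod a c b d (k - 1)
    (by linear_combination hdet) hc (by
      have : 2 * (k - 1) + 1 = 2 * k - 1 := by omega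
      rw [this]; exact hcd)
  obtain ⟨S, hS⟩ : ∃ S : Matrix (Fin 2) (Fin 2) ℤ, S = !![a, b; c, d] := ⟨_, rfl⟩
  obtain ⟨S', hS'⟩ : ∃ S' : Matrix (Fin 2) (Fin 2) ℤ, S' = !![d, -b; -c, a] := ⟨_, rfl⟩
  obtain ⟨w, hw⟩ : ∃ w : Matrix (Fin 2) (Fin 2) ℤ, w = !![0, 1; -1, 0] := ⟨_, rfl⟩
  obtain ⟨w', hw'⟩ : ∃ w' : Matrix (Fin 2) (Fin 2) ℤ, w' = !![0, -1; 1, 0] := ⟨_, rfl⟩
  have hww : w * w' = 1 := by
    rw [hw, hw', Matrix.mul_fin_two, Matrix.one_fin_two]; simp
  have hww' : w' * w = 1 := by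
    rw [hw, hw', Matrix.mul_fin_two, Matrix.one_fin_two]; simp
  have hSS : S * S' = 1 := by
    rw [hS, hS', Matrix.mul_fin_two, Matrix.one_fin_two]
    have e1 : a * d + b * -c = 1 := by linear_combination hdet
    have e2 : a * -b + b * a = 0 := by ring
    have e3 : c * d + d * -c = 0 := by ring
    have e4 : c * -b + d * a = 1 := by linear_combination hdet
    rw [e1, e2, e3, e4]
  have hST : w' * !![a, c; b, d] * w = S' := by
    rw [hw, hw', hS', Matrix.mul_fin_two, Matrix.mul_fin_two]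
    simp
  have hpow : ∀ j : ℕ, w' * !![a, c; b, d] ^ j * w = S' ^ j := by
    intro j
    induction j with
    | zero => rw [pow_zero, pow_zero, Matrix.mul_one, hww']
    | succ j ih =>
      rw [pow_succ, pow_succ, ← ih, ← hST]
      have e : w' * !![a, c; b, d] ^ j * w * (w' * !![a, c; b, d] * w) =
          w' * !![a, c; b, d] ^ j * (w * w') * !![a, c; b, d] * w := by
        simp only [Matrix.mul_assoc]
      rw [e, hww, Matrix.mul_one]
      simp only [Matrix.mul_assoc]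
  have hinvp : ∀ j : ℕ, S ^ j * S' ^ j = 1 := by
    intro j
    induction j with
    | zero => simp
    | succ j ih =>
      rw [pow_succ, pow_succ']
      have e : S ^ j * S * (S' * S' ^ j) = S ^ j * (S * S') * S' ^ j := by
        simp only [Matrix.mul_assoc]
      rw [e, hSS, Matrix.mul_one, ih]
  have hX2Y2 : 1 + (w' * X) * (Y * w) = S' ^ (2 * (k - 1) + 1) := by
    rw [← hpow, ← hXY, Matrix.mul_add, Matrix.add_mul, Matrix.mul_one, hww']
    simp only [Matrix.mul_assoc]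
  have hY2X2 : 1 + (Y * w) * (w' * X) = 1 + Y * X := by
    have e : (Y * w) * (w' * X) = Y * (w * w') * X := by simp only [Matrix.mul_assoc]
    rw [e, hww, Matrix.mul_one]
  have hprod : (1 + X1 * Y1) * (1 + (w' * X) * (Y * w)) = S := by
    rw [hXY1, hX2Y2, ← hS]
    have e : 2 * k = 1 + (2 * (k - 1) + 1) := by omega
    rw [e, pow_add, pow_one, Matrix.mul_assoc, hinvp, Matrix.mul_one]
  have hdet1 : (1 + X1 * Y1).det = 1 := by
    rw [hXY1, Matrix.det_pow, Matrix.det_fin_two_of, hdet, one_pow]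
  have hJ : LU2 (blk (rfl : 2 + 2 = 4) (1 + Y1 * X1) 0 0 (1 + (Y * w) * (w' * X))) := by
    rw [hY2X2]
    obtain ⟨ro, hro⟩ : ∃ ro : Matrix (Fin 1) (Fin 2) ℤ, ro = !![1, 0] := ⟨_, rfl⟩
    obtain ⟨co, hco⟩ : ∃ co : Matrix (Fin 2) (Fin 1) ℤ, co = !![1; 0] := ⟨_, rfl⟩
    have hrc : ro * co = 1 := by
      rw [hro, hco]
      ext i j
      fin_cases i; fin_cases j
      simp [Matrix.mul_apply, Fin.sum_univ_two]
    refine hj 2 2 4 rfl (1 + Y1 * X1) (1 + Y * X) (X' * ro) (co * Y')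
      (lo t1) (up s1) (lo t2) (up s2) (lo p) (up q) (lo l) (up u) (Lo_lo _) (Up_up _) (Lo_lo _)
      (Up_up _) (Lo_lo _) (Up_up _) (Lo_lo _) (Up_up _) ?_ ?_
    · have e : (co * Y') * (X' * ro) = co * (Y' * X') * ro := by simp only [Matrix.mul_assoc]
      rw [e, hYX', Matrix.mul_zero, Matrix.zero_mul, add_zero, Matrix.one_mul]
      exact hYX1
    · have e : (X' * ro) * (co * Y') = X' * (ro * co) * Y' := by simp only [Matrix.mul_assoc]
      rw [e, hrc, Matrix.mul_one]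
      exact hYX
  obtain ⟨XX, YY, h1, h2⟩ := hb 2 2 2 4 rfl X1 Y1 (w' * X) (Y * w) hdet1 hJ
  exact ⟨XX, YY, by rw [h1, hprod, hS], h2⟩

end Pool.Agent.T2h20.UT
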