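import Pool.Agent.T2h20.UT.Stm

/-! Project UT, task B. -/

namespace Pool.Agent.T2h20.UT

open Matrix

namespace TB

theorem blk_add {m k N : ℕ} (h : m + k = N)
    (A A' : Matrix (Fin m) (Fin m) ℤ) (B B' : Matrix (Fin m) (Fin k) ℤ)
    (C C' : Matrix (Fin k) (Fin m) ℤ) (D D' : Matrix (Fin k) (Fin k) ℤ) :
    blk h A B C D + blk h A' B' C' D' = blk h (A + A') (B + B') (C + C') (D + D') := by
  unfold blk
  rw [← Matrix.fromBlocks_add, Matrix.submatrix_add]
  rfl

/-- Absorb a lower factor on the left and an upper factor on the right. -/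
theorem LU2_mul {n : ℕ} {A L U : Matrix (Fin n) (Fin n) ℤ} (hA : LU2 A) (hL : Lo L) (hU : Up U) :
    LU2 (L * A * U) := by
  obtain ⟨l1, u1, l2, u2, h1, h2, h3, h4, rfl⟩ := hA
  exact ⟨L * l1, u1, l2, u2 * U, Lo_mul hL h1, h2, h3, Up_mul h4 hU, by
    simp only [Matrix.mul_assoc]⟩

end TB

open TB in
theorem t_B : S_B := by
  intro k m1 m2 N h X1 Y1 X2 Y2 hdet hLU
  set S1 := 1 + X1 * Y1 with hS1
  set M1 := 1 + Y1 * X1 with hM1
  have hdM : M1.det = 1 := by
    rw [hM1, ← hdet, hS1]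
    exact Matrix.det_one_add_mul_comm Y1 X1
  have hu : IsUnit M1.det := by rw [hdM]; exact isUnit_one
  obtain ⟨M1', hMa, hMb⟩ : ∃ M1' : Matrix (Fin m1) (Fin m1) ℤ, M1 * M1' = 1 ∧ M1' * M1 = 1 :=
    ⟨M1⁻¹, Matrix.mul_nonsing_inv M1 hu, Matrix.nonsing_inv_mul M1 hu⟩
  let e : Fin N ≃ Fin m1 ⊕ Fin m2 := (finCongr h).symm.trans finSumFinEquiv.symm
  refine ⟨(Matrix.fromCols X1 (S1 * X2)).submatrix id e, (Matrix.fromRows Y1 Y2).submatrix e id,
    ?_, ?_⟩
  · rw [Matrix.submatrix_mul_equiv, Matrix.fromCols_mul_fromRows, Matrix.submatrix_id_id,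
      Matrix.mul_add, Matrix.mul_one, hS1, Matrix.mul_assoc]
    abel
  · have h1 : (Matrix.fromRows Y1 Y2).submatrix e id * (Matrix.fromCols X1 (S1 * X2)).submatrix id e =
        blk h (Y1 * X1) (Y1 * (S1 * X2)) (Y2 * X1) (Y2 * (S1 * X2)) := by
      have h2 : (Matrix.fromRows Y1 Y2).submatrix e id *
          (Matrix.fromCols X1 (S1 * X2)).submatrix id e =
          (Matrix.fromRows Y1 Y2 * Matrix.fromCols X1 (S1 * X2)).submatrix e e :=
        Matrix.submatrix_mul_equiv _ _ e (Equiv.refl (Fin k)) e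
      rw [h2, Matrix.fromRows_mul_fromCols]
      rfl
    have hYS : Y1 * S1 = M1 * Y1 := by
      rw [hS1, hM1, Matrix.mul_add, Matrix.add_mul, Matrix.mul_one, Matrix.one_mul, Matrix.mul_assoc]
    have key : 1 + (Matrix.fromRows Y1 Y2).submatrix e id *
        (Matrix.fromCols X1 (S1 * X2)).submatrix id e =
        blk h 1 0 (Y2 * X1 * M1') 1 * blk h M1 0 0 (1 + Y2 * X2) *
          blk h 1 (M1' * (Y1 * (S1 * X2))) 0 1 := by
      rw [h1, ← blk_one h, blk_add, blk_mul, blk_mul]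
      apply blk_inj
      · simp [hM1]
      · simp only [Matrix.one_mul, Matrix.zero_mul, add_zero, Matrix.mul_zero, zero_add,
          Matrix.mul_one]
        rw [← Matrix.mul_assoc M1, hMa, Matrix.one_mul]
      · simp only [Matrix.one_mul, Matrix.zero_mul, add_zero, Matrix.mul_zero, zero_add,
          Matrix.mul_one]
        rw [Matrix.mul_assoc, hMb, Matrix.mul_one]
      · simp only [Matrix.one_mul, Matrix.mul_zero, zero_add, Matrix.mul_one, add_zero]
        have h3 : Y2 * X1 * M1' * M1 * (M1' * (Y1 * (S1 * X2))) = Y2 * (X1 * Y1 * X2) := by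
          have h4 : M1' * (Y1 * (S1 * X2)) = Y1 * X2 := by
            rw [← Matrix.mul_assoc Y1, hYS, ← Matrix.mul_assoc, ← Matrix.mul_assoc, hMb,
              Matrix.one_mul]
          rw [h4, Matrix.mul_assoc (Y2 * X1), hMb, Matrix.mul_one]
          simp only [Matrix.mul_assoc]
        rw [h3, hS1, Matrix.add_mul, Matrix.one_mul, Matrix.mul_add]
        abel
    rw [key]
    exact LU2_mul hLU (Lo_blk h Lo_one Lo_one) (Up_blk h Up_one Up_one)

end Pool.Agent.T2h20.UT
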