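import Pool.Agent.T2h20.UT.T_B

/-! Project UT, task BASE. -/

namespace Pool.Agent.T2h20.UT

open Matrix

namespace TBASE

/-- The case `m = 4`. -/
theorem four (hj : S_J) (ha : S_A4) (hn : S_NTD) (h : 4 + 2 = 6) (B : Matrix (Fin 2) (Fin 2) ℤ)
    (hB : B.det = 1) : LU2 (blk h 1 0 0 B) := by
  have hB2 : B = !![B 0 0, B 0 1; B 1 0, B 1 1] := Matrix.eta_fin_two B
  rw [Matrix.det_fin_two] at hB
  obtain ⟨a, b, c, d, k, σ, p, q, l, u, h1, hσ, hk, hb, hc, hc2, hS⟩ :=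
    hn (B 0 0) (B 0 1) (B 1 0) (B 1 1) hB
  obtain ⟨X, Y, hXY, l1, u1, l2, u2, hl1, hu1, hl2, hu2, hYX⟩ := ha a b c d k σ h1 hσ hk hb hc hc2
  refine hj 4 2 6 h 1 B X Y l1 u1 l2 u2 (lo p) (up q) (lo l) (up u) hl1 hu1 hl2 hu2 (Lo_lo p)
    (Up_up q) (Lo_lo l) (Up_up u) ?_ ?_
  · rw [Matrix.mul_one, hYX]
  · rw [hXY, hB2, hS]

end TBASE

theorem t_BASE (hj : S_J) (ha : S_A4) (hn : S_NTD) : S_BASE := by
  intro m N h B hm hB
  have h6 : 4 + 2 = 6 := rfl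
  obtain ⟨l1, u1, l2, u2, h1, h2, h3, h4, hblk⟩ := TBASE.four hj ha hn h6 B hB
  have ha6 : (m - 4) + 6 = N := by omega
  have hass : ((m - 4) + 4) + 2 = N := by omega
  have h5 := blk_assoc ha6 h6 hass B
  have h7 : blk h 1 0 0 B = blk hass 1 0 0 B := by
    have hm4 : m - 4 + 4 = m := by omega
    ext i j
    rw [blk1_apply, blk1_apply]
    simp only [hm4]
  rw [h7, ← h5, hblk]
  refine ⟨blk ha6 1 0 0 l1, blk ha6 1 0 0 u1, blk ha6 1 0 0 l2, blk ha6 1 0 0 u2,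
    Lo_blk ha6 Lo_one h1, Up_blk ha6 Up_one h2, Lo_blk ha6 Lo_one h3, Up_blk ha6 Up_one h4, ?_⟩
  rw [blk_mul, blk_mul, blk_mul]
  apply blk_inj <;> simp

end Pool.Agent.T2h20.UT
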