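import Pool.Agent.T2h20.UT.Stm

/-! Task EV (helper78): even powers. -/

namespace Pool.Agent.T2h20.UT

open Matrix

theorem mat2 {a b c d a' b' c' d' : ℤ} (h1 : a = a') (h2 : b = b') (h3 : c = c') (h4 : d = d') :
    (!![a, b; c, d] : Matrix (Fin 2) (Fin 2) ℤ) = !![a', b'; c', d'] := by
  rw [h1, h2, h3, h4]

theorem one_add_mat2 (a b c d : ℤ) :
    (1 : Matrix (Fin 2) (Fin 2) ℤ) + !![a, b; c, d] = !![1 + a, b; c, 1 + d] := by
  rw [Matrix.one_fin_two]
  ext i j
  fin_cases i <;> fin_cases j <;> simp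

theorem pow_form (a b c d : ℤ) (hdet : a * d - b * c = 1) (k : ℕ) :
    ∃ f g : ℤ, !![a, b; c, d] ^ k = !![f + g * a, g * b; g * c, f + g * d] ∧
      b ∣ (f + g * a) - a ^ k ∧ f ^ 2 + f * g * (a + d) + g ^ 2 = 1 := by
  induction k with
  | zero =>
    refine ⟨1, 0, ?_, ?_, ?_⟩
    · simp [Matrix.one_fin_two]
    · simp
    · ring
  | succ k ih =>
    obtain ⟨f, g, h1, h2, h3⟩ := ih
    refine ⟨-g, f + g * (a + d), ?_, ?_, ?_⟩
    · rw [pow_succ, h1, Matrix.mul_fin_two]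
      apply mat2
      · linear_combination (-g) * hdet
      · ring
      · ring
      · linear_combination (-g) * hdet
    · obtain ⟨q, hq⟩ := h2
      have : -g + (f + g * (a + d)) * a - a ^ (k + 1) = b * (q * a + g * c) := by
        rw [pow_succ]
        linear_combination a * hq + g * hdet
      rw [this]
      exact dvd_mul_right _ _
    · linear_combination h3

theorem t_EV : S_EV := by
  intro a b c d k σ hdet hσ hb
  obtain ⟨f, g, hV, hx, hfg⟩ := pow_form a b c d hdet k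
  have hσ2 : σ * σ = 1 := by rcases hσ with h | h <;> rw [h] <;> norm_num
  obtain ⟨x, hxd⟩ : ∃ x, x = f + g * a := ⟨_, rfl⟩
  obtain ⟨z, hzd⟩ : ∃ z, z = f + g * d := ⟨_, rfl⟩
  have hxσ : b ∣ x - σ := by
    have : x - σ = (f + g * a - a ^ k) + (a ^ k - σ) := by rw [hxd]; ring
    rw [this]
    exact dvd_add hx hb
  obtain ⟨κ, hκ⟩ := hxσ
  have hκ' : x = σ + b * κ := by linear_combination hκ
  have hxz : x * z - g ^ 2 * b * c = 1 := by
    rw [hxd, hzd]
    linear_combination hfg + g ^ 2 * hdet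
  have hgδ : x - z = g * (a - d) := by rw [hxd, hzd]; ring
  obtain ⟨κ', hκ1⟩ : ∃ κ', κ' = κ + σ * (g ^ 2 * c - κ * z) := ⟨_, rfl⟩
  obtain ⟨t, ht⟩ : ∃ t, t = x + z := ⟨_, rfl⟩
  have hz : z = σ + b * σ * (g ^ 2 * c - κ * z) := by
    linear_combination σ * hxz - σ * z * hκ' + (-z) * hσ2
  have ht' : t = 2 * σ + b * κ' := by
    rw [ht, hκ1]
    linear_combination hκ' + hz
  obtain ⟨γ, hγ⟩ : ∃ γ, γ = t * g ^ 2 * c - κ * (t * z - 1) := ⟨_, rfl⟩
  obtain ⟨δ1, hδ1⟩ : ∃ δ1, δ1 = t * z - 1 - σ * b * γ := ⟨_, rfl⟩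
  obtain ⟨g2, hg2⟩ : ∃ g2, g2 = γ - κ' * δ1 := ⟨_, rfl⟩
  obtain ⟨X0, hX0⟩ : ∃ X0 : Matrix (Fin 2) (Fin 2) ℤ,
    X0 = !![t * x - 2, t * b; t * g * c, 2 * g * b * c - z * (a - d)] := ⟨_, rfl⟩
  obtain ⟨Y0, hY0⟩ : ∃ Y0 : Matrix (Fin 2) (Fin 2) ℤ, Y0 = !![1, 0; 0, g] := ⟨_, rfl⟩
  have hXY : 1 + X0 * Y0 = !![a, b; c, d] ^ (2 * k) := by
    rw [mul_comm 2 k, pow_mul, hV, ← hxd, ← hzd, pow_two, hX0, hY0, Matrix.mul_fin_two,
      Matrix.mul_fin_two, one_add_mat2]
    apply mat2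
    · rw [ht]; linear_combination hxz
    · rw [ht]; ring
    · rw [ht]; ring
    · linear_combination z * hgδ - hxz
  have hM : 1 + Y0 * X0 = !![t * x - 1, t * b; t * g ^ 2 * c, t * z - 1] := by
    rw [hX0, hY0, Matrix.mul_fin_two, one_add_mat2]
    apply mat2
    · ring
    · ring
    · ring
    · rw [ht]; linear_combination z * hgδ - 2 * hxz
  have hfac : (!![t * x - 1, t * b; t * g ^ 2 * c, t * z - 1] : Matrix (Fin 2) (Fin 2) ℤ) =
      lo g2 * up (σ * b) * lo κ' * up (σ * b) * lo κ := by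
    have hd1 : δ1 = 1 + σ * b * g2 := by
      have hdetM : (t * x - 1) * (t * z - 1) - t * b * (t * g ^ 2 * c) = 1 := by
        rw [ht]; linear_combination (x + z) ^ 2 * hxz
      rw [hκ'] at hdetM
      have e1 : (t * σ - 1) * δ1 - σ * b * γ = 1 := by
        rw [hδ1, hγ]
        linear_combination hdetM - t * b * (t * g ^ 2 * c - κ * (t * z - 1)) * hσ2
      have e2 : t * σ - 1 - σ * b * κ' = 1 := by
        rw [ht']; linear_combination 2 * hσ2
      rw [hg2]
      linear_combination (-δ1) * e2 + e1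
    have s1 : lo g2 * up (σ * b) = !![1, σ * b; g2, δ1] := by
      unfold lo up
      rw [Matrix.mul_fin_two]
      apply mat2
      · ring
      · ring
      · ring
      · rw [hd1]; ring
    have s2 : (!![1, σ * b; g2, δ1] : Matrix (Fin 2) (Fin 2) ℤ) * lo κ' =
        !![t * σ - 1, σ * b; γ, δ1] := by
      unfold lo
      rw [Matrix.mul_fin_two]
      apply mat2
      · rw [ht']; linear_combination (-2) * hσ2
      · ring
      · rw [hg2]; ring
      · ring
    have s3 : (!![t * σ - 1, σ * b; γ, δ1] : Matrix (Fin 2) (Fin 2) ℤ) * up (σ * b) =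
        !![t * σ - 1, t * b; γ, t * z - 1] := by
      unfold up
      rw [Matrix.mul_fin_two]
      apply mat2
      · ring
      · linear_combination t * b * hσ2
      · ring
      · rw [hδ1]; ring
    have s4 : (!![t * σ - 1, t * b; γ, t * z - 1] : Matrix (Fin 2) (Fin 2) ℤ) * lo κ =
        !![t * x - 1, t * b; t * g ^ 2 * c, t * z - 1] := by
      unfold lo
      rw [Matrix.mul_fin_two]
      apply mat2
      · rw [hκ']; ring
      · ring
      · rw [hγ]; ring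
      · ring
    rw [s1, s2, s3, s4]
  refine ⟨X0 * lo (-κ), lo κ * Y0, κ + g2, σ * b, κ', σ * b, ?_, ?_⟩
  · rw [← hXY, Matrix.mul_assoc, ← Matrix.mul_assoc (lo (-κ)), lo_mul, neg_add_cancel, lo_zero,
      Matrix.one_mul]
  · have e1 : (1 : Matrix (Fin 2) (Fin 2) ℤ) + lo κ * Y0 * (X0 * lo (-κ)) =
        lo κ * (1 + Y0 * X0) * lo (-κ) := by
      rw [Matrix.mul_add, Matrix.add_mul, Matrix.mul_one, lo_mul, add_neg_cancel, lo_zero]
      simp only [Matrix.mul_assoc]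
    rw [e1, hM, hfac]
    simp only [← Matrix.mul_assoc]
    rw [lo_mul, Matrix.mul_assoc _ (lo κ) (lo (-κ)), lo_mul, add_neg_cancel, lo_zero,
      Matrix.mul_one]

end Pool.Agent.T2h20.UT
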