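import Pool.Agent.T2h20.UT.Stm

/-! Project UT, task IND. -/

namespace Pool.Agent.T2h20.UT

open Matrix

namespace TIND

theorem blk_zero (h : 0 + 2 = 2) (B : Matrix (Fin 2) (Fin 2) ℤ) : blk h 1 0 0 B = B := by
  ext i j
  rw [blk1_apply, dif_pos ⟨Nat.zero_le _, Nat.zero_le _⟩]
  rfl

end TIND

theorem t_IND (h2 : S_P2) : S_IND := by
  intro m
  induction m with
  | zero =>
    intro N h A hA
    obtain rfl : N = 2 := by omega
    refine ⟨1, 1, 1, 1, A, Lo_one, Up_one, Lo_one, Up_one, hA, ?_⟩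
    rw [Matrix.one_mul, Matrix.one_mul, Matrix.one_mul, Matrix.mul_one]
    exact (TIND.blk_zero h A).symm
  | succ m ih =>
    intro N h A hA
    obtain rfl : N = m + 3 := by omega
    have hb : 1 + (m + 2) = m + 3 := by omega
    obtain ⟨l, y, c, z, A', hl, hA', hAe⟩ := h2 m hb A hA
    obtain ⟨l1, u1, l2, u2, B, hl1, hu1, hl2, hu2, hB, hA2⟩ := ih (m + 2) rfl A' hA'
    obtain ⟨l1', hl1', hl1a, hl1b⟩ := Lo_inv hl1
    obtain ⟨u1', hu1', hu1a, hu1b⟩ := Up_inv hu1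
    refine ⟨l * blk hb 1 0 0 l1, blk hb 1 (y * l1) 0 1 * blk hb 1 0 0 u1,
      blk hb 1 0 (u1' * l1' * c) 1 * blk hb 1 0 0 l2, blk hb 1 0 0 u2 * blk hb 1 z 0 1, B,
      Lo_mul hl (Lo_blk hb Lo_one hl1), Up_mul (Up_blk hb Up_one Up_one) (Up_blk hb Up_one hu1),
      Lo_mul (Lo_blk hb Lo_one Lo_one) (Lo_blk hb Lo_one hl2),
      Up_mul (Up_blk hb Up_one hu2) (Up_blk hb Up_one Up_one), hB, ?_⟩
    have hass : (1 + m) + 2 = m + 3 := by omega
    have h5 := blk_assoc hb rfl hass B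
    have h7 : blk h 1 0 0 B = blk hass 1 0 0 B := by
      have hm4 : m + 1 = 1 + m := by omega
      ext i j
      rw [blk1_apply, blk1_apply]
      simp only [hm4]
    rw [h7, ← h5, hAe, hA2]
    have e1 : blk hb 1 0 c 1 * blk hb 1 0 0 (l1 * u1) =
        blk hb 1 0 0 (l1 * u1) * blk hb 1 0 (u1' * l1' * c) 1 := by
      rw [blk_mul, blk_mul]
      apply blk_inj
      · simp
      · simp
      · simp only [Matrix.mul_one, Matrix.zero_mul, add_zero, Matrix.one_mul, Matrix.mul_zero,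
          zero_add]
        rw [← Matrix.mul_assoc, ← Matrix.mul_assoc, Matrix.mul_assoc l1, hu1a, Matrix.mul_one, hl1a,
          Matrix.one_mul]
      · simp
    have e2 : blk hb 1 y 0 1 * blk hb 1 0 0 l1 = blk hb 1 0 0 l1 * blk hb 1 (y * l1) 0 1 := by
      rw [blk_mul, blk_mul]
      apply blk_inj <;> simp
    have e3 : ∀ P Q : Matrix (Fin (m + 2)) (Fin (m + 2)) ℤ,
        blk hb 1 0 0 (P * Q) = blk hb 1 0 0 P * blk hb 1 0 0 Q := by
      intro P Q
      rw [blk_mul]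
      apply blk_inj <;> simp
    calc l * blk hb 1 y 0 1 * blk hb 1 0 c 1 *
          blk hb 1 0 0 (l1 * u1 * l2 * blk rfl 1 0 0 B * u2) * blk hb 1 z 0 1
        = l * blk hb 1 y 0 1 * (blk hb 1 0 c 1 * blk hb 1 0 0 (l1 * u1)) *
          blk hb 1 0 0 l2 * blk hb 1 0 0 (blk rfl 1 0 0 B) * blk hb 1 0 0 u2 * blk hb 1 z 0 1 := by
          rw [e3, e3, e3]
          simp only [Matrix.mul_assoc]
      _ = l * (blk hb 1 y 0 1 * blk hb 1 0 0 l1) * blk hb 1 0 0 u1 *
          blk hb 1 0 (u1' * l1' * c) 1 *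
          blk hb 1 0 0 l2 * blk hb 1 0 0 (blk rfl 1 0 0 B) * blk hb 1 0 0 u2 * blk hb 1 z 0 1 := by
          rw [e1, e3]
          simp only [Matrix.mul_assoc]
      _ = _ := by
          rw [e2]
          simp only [Matrix.mul_assoc]

end Pool.Agent.T2h20.UT
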