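import Pool.Agent.T2h20.UT.Stm

/-! Project UT, task MAIN. -/

namespace Pool.Agent.T2h20.UT

open Matrix

theorem t_MAIN (hi : S_IND) (hb : S_BASE) : S_MAIN := by
  intro n hn A hA
  have hu : IsUnit A.det := by rw [hA]; exact isUnit_one
  have hA' : (A⁻¹).det = 1 := by
    rw [Matrix.det_nonsing_inv, hA]
    exact Ring.inverse_one ℤ
  have hAA : A * A⁻¹ = 1 := Matrix.mul_nonsing_inv A hu
  have h : (n - 2) + 2 = n := by omega
  obtain ⟨l1, u1, l2, u2, B, hl1, hu1, hl2, hu2, hB, hAB⟩ := hi (n - 2) n h A⁻¹ hA'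
  obtain ⟨l3, u3, l4, u4, hl3, hu3, hl4, hu4, hblk⟩ := hb (n - 2) n h B (by omega) hB
  obtain ⟨l1', hl1', hl1a, hl1b⟩ := Lo_inv hl1
  obtain ⟨u1', hu1', hu1a, hu1b⟩ := Up_inv hu1
  obtain ⟨l2', hl2', hl2a, hl2b⟩ := Lo_inv (Lo_mul hl2 hl3)
  obtain ⟨u3', hu3', hu3a, hu3b⟩ := Up_inv hu3
  obtain ⟨l4', hl4', hl4a, hl4b⟩ := Lo_inv hl4
  obtain ⟨u4', hu4', hu4a, hu4b⟩ := Up_inv (Up_mul hu4 hu2)
  refine ⟨u4', l4', u3', l2', u1', l1', hu4', hl4', hu3', hl2', hu1', hl1', ?_⟩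
  have h1 : A⁻¹ * (u4' * l4' * u3' * l2' * u1' * l1') = 1 := by
    rw [hAB, hblk]
    have e : l1 * u1 * l2 * (l3 * u3 * l4 * u4) * u2 * (u4' * l4' * u3' * l2' * u1' * l1') =
        l1 * (u1 * ((l2 * l3) * (u3 * (l4 * ((u4 * u2) * u4') * l4') * u3') * l2') * u1') * l1' := by
      simp only [Matrix.mul_assoc]
    rw [e, hu4a, Matrix.mul_one, hl4a, Matrix.mul_one, hu3a, Matrix.mul_one, hl2a, Matrix.mul_one,
      hu1a, Matrix.mul_one, hl1a]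
  calc A = A * (A⁻¹ * (u4' * l4' * u3' * l2' * u1' * l1')) := by rw [h1, Matrix.mul_one]
    _ = _ := by rw [← Matrix.mul_assoc, hAA, Matrix.one_mul]

end Pool.Agent.T2h20.UT
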