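import Pool.Agent.T2h20.UT.Stm

namespace Pool.Agent.T2h20.UT

open scoped NumberTheorySymbols in
theorem t_NTA : S_NTA := by
  intro a c1 ha1 ha3 hco
  have hodd : Odd a := Nat.odd_iff.2 (by omega)
  have hgcd : Int.gcd c1 a = 1 := by
    have := Int.isCoprime_iff_gcd_eq_one.1 hco
    rwa [Int.gcd_comm] at this
  -- sign
  obtain ⟨s, hs, hJs⟩ : ∃ s : ℤ, (s = 1 ∨ s = -1) ∧ J(s * c1 | a) = 1 := by
    have hm1 : J(-1 | a) = -1 := by
      rw [jacobiSym.at_neg_one hodd]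
      exact ZMod.χ₄_nat_three_mod_four ha3
    rcases jacobiSym.eq_one_or_neg_one hgcd with h | h
    · exact ⟨1, Or.inl rfl, by rw [one_mul, h]⟩
    · refine ⟨-1, Or.inr rfl, ?_⟩
      rw [jacobiSym.mul_left, h, hm1]; norm_num
  have hss : s * s = 1 := by rcases hs with h | h <;> rw [h] <;> norm_num
  -- the residue
  set c' : ℤ := s * c1 + a * (s * c1 + 1) with hc'
  have ha4 : ∃ e : ℤ, (a : ℤ) = 4 * e + 3 := ⟨(a / 4 : ℕ), by push_cast; omega⟩
  obtain ⟨e, he⟩ := ha4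
  have hc4 : ∃ f : ℤ, c' = 4 * f + 3 := ⟨s * c1 + e * (s * c1 + 1), by rw [hc', he]; ring⟩
  obtain ⟨f, hf⟩ := hc4
  have hsc : IsCoprime (a : ℤ) (s * c1) := by
    apply IsCoprime.mul_right _ hco
    exact ⟨0, s, by rw [hss]; ring⟩
  have hcop1 : IsCoprime (a : ℤ) c' := by
    obtain ⟨u, v, huv⟩ := hsc
    refine ⟨u - v * (s * c1 + 1), v, ?_⟩
    rw [hc']
    linear_combination huv
  have hcop4 : IsCoprime (4 : ℤ) c' := by
    refine ⟨f + 1, -1, ?_⟩
    rw [hf]; ring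
  have hcop : IsCoprime ((4 * a : ℕ) : ℤ) c' := by
    push_cast
    exact IsCoprime.mul_left hcop4 hcop1
  haveI : NeZero (4 * a) := ⟨by omega⟩
  have hunit : IsUnit ((c' : ℤ) : ZMod (4 * a)) := by
    rw [ZMod.coe_int_isUnit_iff_isCoprime]
    exact hcop
  obtain ⟨π, -, hπp, hπ⟩ := Nat.forall_exists_prime_gt_and_eq_mod hunit 2
  have hdvd : ((4 * a : ℕ) : ℤ) ∣ (π : ℤ) - c' := by
    have h1 : ((π : ℤ) : ZMod (4 * a)) = ((c' : ℤ) : ZMod (4 * a)) := by
      rw [← hπ]; push_cast; rfl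
    have := (ZMod.intCast_eq_intCast_iff_dvd_sub c' (π : ℤ) (4 * a)).1 h1.symm
    exact this
  obtain ⟨g, hg⟩ := hdvd
  push_cast at hg
  have hπ4 : π % 4 = 3 := by
    have : (π : ℤ) = 4 * (a * g + f) + 3 := by linear_combination hg + hf
    omega
  have hadvd : (a : ℤ) ∣ π - s * c1 := ⟨4 * g + (s * c1 + 1), by
    linear_combination hg + hc'⟩
  refine ⟨s, π, hs, hπp, hπ4, ?_, ?_⟩
  · obtain ⟨t, ht⟩ := hadvd
    exact ⟨s * t, by linear_combination s * ht + c1 * hss⟩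
  · have hrec : J(a | π) = -J(π | a) :=
      jacobiSym.quadratic_reciprocity_three_mod_four ha3 hπ4
    have hmod : J(π | a) = J(s * c1 | a) := by
      apply jacobiSym.mod_left'
      exact Int.emod_eq_emod_iff_emod_sub_eq_zero.2 (Int.emod_eq_zero_of_dvd hadvd)
    rw [hmod, hJs] at hrec
    haveI : Fact π.Prime := ⟨hπp⟩
    rw [← jacobiSym.legendreSym.to_jacobiSym] at hrec
    have hpow := legendreSym.eq_pow π (a : ℤ)
    rw [hrec] at hpow
    have hpi : π / 2 = (π - 1) / 2 := by omega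
    rw [hpi] at hpow
    rw [← ZMod.intCast_zmod_eq_zero_iff_dvd]
    push_cast
    push_cast at hpow
    rw [← hpow]; ring

end Pool.Agent.T2h20.UT
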