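import Pool.Agent.T2h20.UT.Stm

namespace Pool.Agent.T2h20.UT

theorem t_NTB : S_NTB := by
  intro a b1 s π ha1 hs hπp hπ4 hdvd
  have hss : s * s = 1 := by rcases hs with h | h <;> rw [h] <;> norm_num
  obtain ⟨h, hh⟩ : ∃ h : ℕ, π = 2 * h + 1 := ⟨π / 2, by omega⟩
  have hh2 : (π - 1) / 2 = h := by omega
  have hhodd : h % 2 = 1 := by omega
  rw [hh2]
  have hπ : (π : ℤ) = 2 * h + 1 := by rw [hh]; push_cast; ring
  set β0 : ℤ := -1 - 2 * h * s * b1 with hβ0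
  have hco1 : IsCoprime (h : ℤ) β0 := ⟨-2 * s * b1, -1, by rw [hβ0]; ring⟩
  obtain ⟨e, he⟩ := hdvd
  have hco2 : IsCoprime (a : ℤ) β0 := by
    refine ⟨-(2 * h * e), -(2 * h + 1), ?_⟩
    rw [hβ0]
    rw [hπ] at he
    linear_combination (2 * (h : ℤ)) * he
  haveI : NeZero (a * h) := ⟨by
    have : 0 < h := by omega
    have : 0 < a := by omega
    positivity⟩
  have hcop : IsCoprime ((a * h : ℕ) : ℤ) β0 := by
    push_cast
    exact IsCoprime.mul_left hco2 hco1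
  have hunit : IsUnit ((β0 : ℤ) : ZMod (a * h)) := by
    rw [ZMod.coe_int_isUnit_iff_isCoprime]
    exact hcop
  obtain ⟨β, hβ2, hβp, hβ⟩ := Nat.forall_exists_prime_gt_and_eq_mod hunit 2
  have hdvd : ((a * h : ℕ) : ℤ) ∣ (β : ℤ) - β0 := by
    have h1 : ((β : ℤ) : ZMod (a * h)) = ((β0 : ℤ) : ZMod (a * h)) := by
      rw [← hβ]; push_cast; rfl
    exact (ZMod.intCast_eq_intCast_iff_dvd_sub β0 (β : ℤ) (a * h)).1 h1.symm
  obtain ⟨g, hg⟩ := hdvd
  push_cast at hg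
  refine ⟨β, hβp, hβ2, ?_, ?_⟩
  · refine ⟨s * h * g - s * e, ?_⟩
    rw [hπ] at he
    linear_combination s * hg + s * hβ0 - s * he + b1 * hss
  · have hβ1 : 1 ≤ β := hβp.one_lt.le
    have hint : IsCoprime ((β : ℤ) - 1) (h : ℤ) := by
      -- β - 1 = -2 + h (a g - 2 s b1)
      obtain ⟨m, hm⟩ : ∃ m : ℤ, (h : ℤ) = 2 * m + 1 := ⟨(h / 2 : ℕ), by push_cast; omega⟩
      have hb : (β : ℤ) - 1 = -2 + h * (a * g - 2 * s * b1) := by
        linear_combination hg + hβ0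
      refine ⟨m, 1 - m * (a * g - 2 * s * b1), ?_⟩
      rw [hb]
      linear_combination hm
    rw [← Nat.isCoprime_iff_coprime]
    have : ((β - 1 : ℕ) : ℤ) = (β : ℤ) - 1 := by omega
    rw [this]
    exact hint

end Pool.Agent.T2h20.UT
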