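import Pool.Agent.T2h20.UT.Stm

namespace Pool.Agent.T2h20.UT

theorem t_NTC : S_NTC := by
  intro a β π hβp hβ2 hπp hπ4 hcop hβa hπa
  haveI : Fact β.Prime := ⟨hβp⟩
  haveI : Fact π.Prime := ⟨hπp⟩
  obtain ⟨h, hh⟩ : ∃ h : ℕ, π = 2 * h + 1 := ⟨π / 2, by omega⟩
  have hh2 : (π - 1) / 2 = h := by omega
  have hhodd : h % 2 = 1 := by omega
  rw [hh2] at hcop hπa
  obtain ⟨c, hc⟩ : ∃ c : ℕ, β = 2 * c + 1 := by
    have := hβp.eq_two_or_odd
    exact ⟨β / 2, by omega⟩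
  have hβ1 : β - 1 = 2 * c := by omega
  have hc1 : 1 ≤ c := by omega
  rw [hβ1] at hcop
  -- r (2c) = 1 + t h
  obtain ⟨r, t, hr, hrt⟩ : ∃ r t : ℕ, 1 ≤ r ∧ r * (2 * c) = 1 + t * h := by
    obtain ⟨x, hx⟩ := (Nat.isCoprime_iff_coprime.2 hcop)
    obtain ⟨y, hxy⟩ := hx
    -- x * (2c) + y * h = 1
    push_cast at hxy
    have hhpos : (1 : ℤ) ≤ h := by omega
    have hcpos : (1 : ℤ) ≤ c := by exact_mod_cast hc1
    -- r = x + h * N, t = 2c * N - y
    set N : ℤ := |x| + |y| + 1 with hN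
    have hx1 := neg_abs_le x
    have hy1 := le_abs_self y
    have hx0 := abs_nonneg x
    have hy0 := abs_nonneg y
    have hr0 : 1 ≤ x + h * N := by nlinarith
    have ht0 : 0 ≤ 2 * c * N - y := by nlinarith
    refine ⟨(x + h * N).toNat, (2 * c * N - y).toNat, by omega, ?_⟩
    zify
    rw [Int.toNat_of_nonneg (by omega), Int.toNat_of_nonneg ht0]
    linear_combination hxy
  have hthodd : (t * h) % 2 = 1 := by
    have : (r * (2 * c)) % 2 = 0 := by
      rw [show r * (2 * c) = 2 * (r * c) by ring]; omega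
    omega
  have htodd : t % 2 = 1 := by
    rcases Nat.mod_two_eq_zero_or_one t with h0 | h1
    · exfalso
      rw [Nat.mul_mod, h0] at hthodd
      simp at hthodd
    · exact h1
  have hk : 1 ≤ r * c := Nat.one_le_iff_ne_zero.2 (by positivity)
  have ha0 : (a : ZMod β) ≠ 0 := by
    intro h0
    exact hβa ((ZMod.intCast_zmod_eq_zero_iff_dvd a β).1 h0)
  have hpow := ZMod.pow_div_two_eq_neg_one_or_one β ha0
  have hβd : β / 2 = c := by omega
  rw [hβd] at hpow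
  have h2k : 2 * (r * c) - 1 = h * t := by
    have : 2 * (r * c) = 1 + t * h := by rw [← hrt]; ring
    rw [mul_comm h t]; omega
  have hπ' : (π : ℤ) ∣ a ^ (2 * (r * c) - 1) + 1 := by
    rw [h2k, pow_mul]
    have hto : Odd t := Nat.odd_iff.2 htodd
    have h1 : (a ^ h + 1) ∣ (a ^ h) ^ t + 1 ^ t := Odd.add_dvd_pow_add_pow _ _ hto
    rw [one_pow] at h1
    exact hπa.trans h1
  rcases hpow with h1 | h1
  · refine ⟨r * c, 1, hk, Or.inl rfl, ?_, hπ'⟩
    rw [← ZMod.intCast_zmod_eq_zero_iff_dvd]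
    push_cast
    rw [mul_comm r c, pow_mul, h1, one_pow, sub_self]
  · rcases Nat.even_or_odd r with he | ho
    · refine ⟨r * c, 1, hk, Or.inl rfl, ?_, hπ'⟩
      rw [← ZMod.intCast_zmod_eq_zero_iff_dvd]
      push_cast
      rw [mul_comm r c, pow_mul, h1, he.neg_one_pow, sub_self]
    · refine ⟨r * c, -1, hk, Or.inr rfl, ?_, hπ'⟩
      rw [← ZMod.intCast_zmod_eq_zero_iff_dvd]
      push_cast
      rw [mul_comm r c, pow_mul, h1, ho.neg_one_pow]
      ring

end Pool.Agent.T2h20.UT
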