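import Pool.Agent.T2h20.UT.Stm

/-! Project UT, task NTD. -/

namespace Pool.Agent.T2h20.UT

open Matrix

theorem t_NTD (ha : S_NTA) (hb : S_NTB) (hc : S_NTC) : S_NTD := by
  intro a0 b0 c0 d0 hdet
  obtain ⟨k0, hk0⟩ : ∃ k0 : ℤ, Odd (b0 + k0 * a0) := by
    rcases Int.even_or_odd b0 with h | h
    · refine ⟨1, ?_⟩
      rcases Int.even_or_odd a0 with h' | h'
      · exfalso
        obtain ⟨x, hx⟩ := h'
        obtain ⟨y, hy⟩ := h
        have h1 : 2 * (x * d0 - y * c0) = 1 := by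
          rw [hx, hy] at hdet
          linarith
        omega
      · rw [one_mul]
        exact h.add_odd h'
    · exact ⟨0, by simpa using h⟩
  obtain ⟨b1, hb1⟩ : ∃ b1, b1 = b0 + k0 * a0 := ⟨_, rfl⟩
  rw [← hb1] at hk0
  obtain ⟨j, hj⟩ := hk0
  obtain ⟨k1, an, han, han4, hane⟩ : ∃ (k1 : ℤ) (an : ℕ), 1 < an ∧ an % 4 = 3 ∧
      (an : ℤ) = a0 + k1 * b1 := by
    have h1 : 0 ≤ 3 - a0 + 4 * |a0| := by
      have := le_abs_self a0
      have := abs_nonneg a0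
      linarith
    have h2 : 0 ≤ j ^ 2 + j := by
      rcases le_or_gt 0 j with h | h
      · positivity
      · nlinarith
    have h3 : 0 ≤ |a0| + (j ^ 2 + j) * (3 - a0 + 4 * |a0|) :=
      add_nonneg (abs_nonneg _) (mul_nonneg h2 h1)
    refine ⟨b1 * (3 - a0 + 4 * |a0|),
      3 + 4 * (|a0| + (j ^ 2 + j) * (3 - a0 + 4 * |a0|)).toNat, by omega, by omega, ?_⟩
    push_cast
    rw [Int.toNat_of_nonneg h3, hj]
    ring
  obtain ⟨c1, hc1⟩ : ∃ c1, c1 = c0 + (d0 + k0 * c0) * k1 := ⟨_, rfl⟩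
  obtain ⟨d1, hd1⟩ : ∃ d1, d1 = d0 + k0 * c0 := ⟨_, rfl⟩
  have e1 : (an : ℤ) * d1 - b1 * c1 = 1 := by
    rw [hane, hd1, hc1, hb1]
    linear_combination hdet
  obtain ⟨s, π, hs, hπ, hπ4, hsπ, hπa⟩ := ha an c1 han han4 ⟨d1, -b1, by linarith⟩
  obtain ⟨k2, hk2⟩ := hsπ
  have hss : s * s = 1 := by rcases hs with rfl | rfl <;> norm_num
  obtain ⟨d2, hd2⟩ : ∃ d2, d2 = d1 + k2 * b1 := ⟨_, rfl⟩
  have hc2 : s * (π : ℤ) = c1 + k2 * an := by linarith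
  have e2 : (an : ℤ) * d2 - b1 * (s * π) = 1 := by
    rw [hd2, hc2]
    linear_combination e1
  obtain ⟨β, hβ, hβ2, hβa, hβπ⟩ := hb an b1 s π han hs hπ hπ4 ⟨d2, by linarith⟩
  obtain ⟨k3, hk3⟩ := hβa
  have hb3 : s * (β : ℤ) = b1 + k3 * an := by linarith
  have e3 : (an : ℤ) * (d2 + k3 * (s * π)) - (s * β) * (s * π) = 1 := by
    rw [hb3]
    linear_combination e2
  have hβn : ¬ (β : ℤ) ∣ (an : ℤ) := by
    intro h
    have h1 : (β : ℤ) ∣ 1 := by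
      rw [← e3]
      refine dvd_sub (Dvd.dvd.mul_right h _) ?_
      exact Dvd.dvd.mul_right (Dvd.intro_left _ rfl) _
    have h2 := Int.le_of_dvd one_pos h1
    omega
  obtain ⟨k, σ, hk, hσ, hkβ, hkπ⟩ := hc an β π hβ hβ2 hπ hπ4 hβπ hβn hπa
  have hdvd : ∀ (x : ℤ) (n : ℕ), (n : ℤ) ∣ x → s * (n : ℤ) ∣ x := by
    rintro x n ⟨t, ht⟩
    exact ⟨s * t, by rw [ht]; linear_combination -(n * t : ℤ) * hss⟩
  refine ⟨an, s * β, s * π, d2 + k3 * (s * π), k, σ, -k2, -k3, -k1, -k0, e3, hσ, hk,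
    hdvd _ _ hkβ, ?_, hdvd _ _ hkπ, ?_⟩
  · have hp := Nat.prime_iff_prime_int.1 hπ
    rcases hs with rfl | rfl
    · rwa [one_mul]
    · rw [neg_one_mul]
      exact hp.neg
  · unfold lo up
    rw [Matrix.mul_fin_two, Matrix.mul_fin_two, Matrix.mul_fin_two, Matrix.mul_fin_two, hc2, hb3,
      hd2, hd1, hc1, hane, hb1]
    congr 1
    ext i j
    fin_cases i <;> fin_cases j <;> simp <;> ring

end Pool.Agent.T2h20.UT
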