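import Pool.Agent.T2h20.UT.Stm

namespace Pool.Agent.T2h20.UT

open Matrix

/-- Cayley-Hamilton data for the powers of `V`, with the Chebyshev relation. -/
theorem od_ch (a b c d : ℤ) (hdet : a * d - b * c = 1) (k : ℕ) :
    ∃ f g f' g' : ℤ, !![a, b; c, d] ^ k = !![f + g * a, g * b; g * c, f + g * d] ∧
      !![a, b; c, d] ^ (k + 1) = !![f' + g' * a, g' * b; g' * c, f' + g' * d] ∧
      f' = -g ∧ g' = (a + d) * g + f ∧ g' ^ 2 - (a + d) * g * g' + g ^ 2 = 1 := by
  induction k with
  | zero =>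
    refine ⟨1, 0, 0, 1, ?_, ?_, by ring, by ring, by ring⟩
    · rw [pow_zero, Matrix.one_fin_two]; simp
    · rw [zero_add, pow_one]; simp
  | succ k ih =>
    obtain ⟨f, g, f', g', h1, h2, h3, h4, h5⟩ := ih
    refine ⟨f', g', -g', (a + d) * g' + f', h2, ?_, rfl, rfl, ?_⟩
    · rw [pow_succ, h2, Matrix.mul_fin_two]
      congr 1
      ext i j
      fin_cases i <;> fin_cases j <;> simp <;>
        first
          | linear_combination (-g') * hdet
          | ring
    · subst h3; linear_combination h5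

theorem od_mod (a b c d : ℤ) (hdet : a * d - b * c = 1) (n : ℕ) :
    b ∣ (!![a, b; c, d] ^ n) 0 0 - a ^ n := by
  induction n with
  | zero => simp
  | succ n ih =>
    obtain ⟨f, g, f', g', h1, -, -, -, -⟩ := od_ch a b c d hdet n
    obtain ⟨m, hm⟩ := ih
    refine ⟨m * a + g * c, ?_⟩
    rw [pow_succ, Matrix.mul_apply, Fin.sum_univ_two]
    have h01 : (!![a, b; c, d] ^ n) 0 1 = g * b := by rw [h1]; simp
    rw [h01]
    simp only [Matrix.of_apply, Matrix.cons_val', Matrix.cons_val_zero, Matrix.cons_val_one,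
      Matrix.cons_val_fin_one]
    rw [pow_succ]
    linear_combination a * hm

theorem t_OD : S_OD := by
  intro a b c d k hdet hb hdvd
  obtain ⟨f, g, f', g', h1, h2, h3, h4, h5⟩ := od_ch a b c d hdet k
  have hf : f = g' - (a + d) * g := by rw [h4]; ring
  set P := g' + g with hP
  set Q := g' - g with hQ
  set A := g' ^ 2 * a - 2 * g * g' + d * g ^ 2 with hA
  set D := g' ^ 2 * d - 2 * g * g' + a * g ^ 2 with hD
  have hpow : !![a, b; c, d] ^ (2 * k + 1) = !![A, P * Q * b; P * Q * c, D] := by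
    have : 2 * k + 1 = k + (k + 1) := by ring
    rw [this, pow_add, h1, h2, Matrix.mul_fin_two, h3, hf, hA, hD, hP, hQ]
    congr 1
    ext i j
    fin_cases i <;> fin_cases j <;> simp
    · linear_combination (-g * g') * hdet
    · ring
    · ring
    · linear_combination (-g * g') * hdet
  set κ := g' * a - g + g' - d * g with hκ
  set e := g' * (d - 1) + g * (a - 1) with he
  have hAκ : A = Q * κ - 1 := by rw [hA, hQ, hκ]; linear_combination (-1) * h5
  have hDe : D = 1 + P * e := by rw [hD, hP, he]; linear_combination h5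
  set E := P ^ 2 * Q * c with hE
  have hdM : A * D - Q * b * E = 1 := by
    have h6 : (!![a, b; c, d] ^ (2 * k + 1)).det = 1 := by
      rw [Matrix.det_pow, Matrix.det_fin_two_of, hdet, one_pow]
    rw [hpow, Matrix.det_fin_two_of] at h6
    rw [hE]; linear_combination h6
  have hbQκ : b ∣ Q * κ := by
    have h7 := od_mod a b c d hdet (2 * k + 1)
    rw [hpow] at h7
    have h8 : b ∣ A - a ^ (2 * k + 1) := by simpa using h7
    have h9 := dvd_add h8 hdvd
    have h10 : A - a ^ (2 * k + 1) + (a ^ (2 * k + 1) + 1) = Q * κ := by rw [hAκ]; ring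
    rwa [h10] at h9
  have hXY : (1 : Matrix (Fin 2) (Fin 2) ℤ) +
      !![A - 1, Q * b; P * Q * c, e] * !![1, 0; 0, P] = !![A, P * Q * b; P * Q * c, D] := by
    rw [Matrix.mul_fin_two, Matrix.one_fin_two, hDe]
    ext i j
    fin_cases i <;> fin_cases j <;> simp <;> ring
  have hYX : (1 : Matrix (Fin 2) (Fin 2) ℤ) +
      !![1, 0; 0, P] * !![A - 1, Q * b; P * Q * c, e] = !![A, Q * b; E, D] := by
    rw [Matrix.mul_fin_two, Matrix.one_fin_two, hDe, hE]
    ext i j
    fin_cases i <;> fin_cases j <;> simp <;> ring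
  rcases hb.dvd_or_dvd hbQκ with ⟨Q1, hQ1⟩ | ⟨κ1, hκ1⟩
  · set γ := E * (1 + Q1 * b * κ) - D * Q1 * κ ^ 2 with hγ
    refine ⟨!![A - 1, Q * b; P * Q * c, e], !![1, 0; 0, P], !![-(Q1 * b); Q1 * (b + κ)],
      !![κ + b, b], 1 - γ, -2, 1, -2, ?_, ?_, ?_⟩
    · rw [hXY, hpow]
    · ext i j
      fin_cases i <;> fin_cases j <;> simp [Matrix.mul_apply, Fin.sum_univ_two]
      ring
    · rw [hYX]
      have hXY' : (!![-(Q1 * b); Q1 * (b + κ)] : Matrix (Fin 2) (Fin 1) ℤ) *
          (!![κ + b, b] : Matrix (Fin 1) (Fin 2) ℤ) =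
          !![-(Q1 * b) * (κ + b), -(Q1 * b) * b; Q1 * (b + κ) * (κ + b), Q1 * (b + κ) * b] := by
        ext i j
        fin_cases i <;> fin_cases j <;> simp [Matrix.mul_apply]
      rw [hXY', Matrix.one_fin_two]
      simp only [lo, up]
      have hadd : (!![1, 0; 0, 1] : Matrix (Fin 2) (Fin 2) ℤ) +
          !![-(Q1 * b) * (κ + b), -(Q1 * b) * b; Q1 * (b + κ) * (κ + b), Q1 * (b + κ) * b] =
          !![1 + -(Q1 * b) * (κ + b), -(Q1 * b) * b; Q1 * (b + κ) * (κ + b),
            1 + Q1 * (b + κ) * b] := by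
        ext i j
        fin_cases i <;> fin_cases j <;> simp
      rw [hadd, Matrix.mul_fin_two, Matrix.mul_fin_two, Matrix.mul_fin_two, Matrix.mul_fin_two]
      have hdM' : (b * Q1 * κ - 1) * D - b * Q1 * b * E = 1 := by
        have := hdM; rw [hAκ, hQ1] at this; linear_combination this
      congr 1
      ext i j
      fin_cases i <;> fin_cases j <;> simp
      · rw [hAκ, hQ1]; ring
      · rw [hQ1]; ring
      · rw [hγ]; linear_combination (-(Q1 * κ ^ 2)) * hdM'
      · rw [hγ]; linear_combination (-(1 + Q1 * b * κ)) * hdM'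
  · set γ := E - κ1 * D with hγ
    refine ⟨!![A - 1, Q * b; P * Q * c, e] * lo (-κ1), lo κ1 * !![1, 0; 0, P], 0, 0,
      κ1 - γ + 1, -2, 1, -2 - Q * b, ?_, ?_, ?_⟩
    · have : !![A - 1, Q * b; P * Q * c, e] * lo (-κ1) * (lo κ1 * !![1, 0; 0, P]) =
          !![A - 1, Q * b; P * Q * c, e] * !![1, 0; 0, P] := by
        calc !![A - 1, Q * b; P * Q * c, e] * lo (-κ1) * (lo κ1 * !![1, 0; 0, P])
            = !![A - 1, Q * b; P * Q * c, e] * (lo (-κ1) * lo κ1) * !![1, 0; 0, P] := by
              simp only [Matrix.mul_assoc]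
          _ = _ := by rw [lo_mul, neg_add_cancel, lo_zero, Matrix.mul_one]
      rw [this, hXY, hpow]
    · simp
    · have : (1 : Matrix (Fin 2) (Fin 2) ℤ) + lo κ1 * !![1, 0; 0, P] *
          (!![A - 1, Q * b; P * Q * c, e] * lo (-κ1)) =
          lo κ1 * (1 + !![1, 0; 0, P] * !![A - 1, Q * b; P * Q * c, e]) * lo (-κ1) := by
        rw [Matrix.mul_add, Matrix.add_mul, Matrix.mul_one, lo_mul, add_neg_cancel, lo_zero]
        simp only [Matrix.mul_assoc]
      rw [this, hYX, Matrix.mul_zero, add_zero, Matrix.mul_one]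
      simp only [lo, up]
      rw [Matrix.mul_fin_two, Matrix.mul_fin_two, Matrix.mul_fin_two, Matrix.mul_fin_two,
        Matrix.mul_fin_two]
      have hdM' : (Q * (b * κ1) - 1) * D - Q * b * E = 1 := by
        have := hdM; rw [hAκ, hκ1] at this; linear_combination this
      congr 1
      ext i j
      fin_cases i <;> fin_cases j <;> simp
      · rw [hAκ, hκ1]; ring
      · rw [hAκ, hκ1, hγ]; ring
      · rw [hγ]; linear_combination (-1) * hdM'

end Pool.Agent.T2h20.UT
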