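import Pool.Agent.T2h20.UT.Stm

/-! Task P1 (helper78): stable range of the integers. -/

namespace Pool.Agent.T2h20.UT

open Matrix

theorem exists_coprime_shift (w0 v0 g : ℤ) (hg : g ≠ 0)
    (h : ∀ p : ℕ, p.Prime → (p : ℤ) ∣ g → (p : ℤ) ∣ w0 → ¬ (p : ℤ) ∣ v0) :
    ∃ x0 : ℤ, IsCoprime (w0 + x0 * v0) g := by
  classical
  obtain ⟨S, hS⟩ : ∃ S : Finset ℕ, ∀ p : ℕ, p ∈ S ↔ (p.Prime ∧ (p : ℤ) ∣ g) ∧ ¬ (p : ℤ) ∣ w0 := by
    refine ⟨g.natAbs.primeFactors.filter (fun p : ℕ => ¬ (p : ℤ) ∣ w0), fun p => ?_⟩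
    rw [Finset.mem_filter, Nat.mem_primeFactors]
    constructor
    · rintro ⟨⟨h1, h2, -⟩, h3⟩
      exact ⟨⟨h1, Int.natCast_dvd.2 h2⟩, h3⟩
    · rintro ⟨⟨h1, h2⟩, h3⟩
      exact ⟨⟨h1, Int.natCast_dvd.1 h2, Int.natAbs_ne_zero.2 hg⟩, h3⟩
  obtain ⟨x, hx⟩ : ∃ x : ℕ, x = ∏ p ∈ S, p := ⟨_, rfl⟩
  refine ⟨(x : ℤ), ?_⟩
  rw [Int.isCoprime_iff_gcd_eq_one, Nat.eq_one_iff_not_exists_prime_dvd]
  intro p hp hpd
  have hpg : (p : ℤ) ∣ g :=
    (Int.natCast_dvd_natCast.2 hpd).trans (Int.gcd_dvd_right _ _)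
  have hpw : (p : ℤ) ∣ w0 + (x : ℤ) * v0 :=
    (Int.natCast_dvd_natCast.2 hpd).trans (Int.gcd_dvd_left _ _)
  have hpp : Prime (p : ℤ) := Nat.prime_iff_prime_int.1 hp
  by_cases hw : (p : ℤ) ∣ w0
  · have h1 := (dvd_add_right hw).1 hpw
    rcases hpp.dvd_or_dvd h1 with h2 | h2
    · have h3 : p ∣ ∏ p ∈ S, p := by
        rw [← hx]
        exact Int.natCast_dvd_natCast.1 h2
      rw [Prime.dvd_finset_prod_iff (Nat.prime_iff.1 hp)] at h3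
      obtain ⟨q, hq, hpq⟩ := h3
      rw [hS] at hq
      have h4 : p = q := (Nat.prime_dvd_prime_iff_eq hp hq.1.1).1 hpq
      subst h4
      exact hq.2 hw
    · exact h p hp hpg hw h2
  · have h3 : p ∣ x := by
      rw [hx]
      apply Finset.dvd_prod_of_mem (fun p => p)
      rw [hS]
      exact ⟨⟨hp, hpg⟩, hw⟩
    have h4 : (p : ℤ) ∣ (x : ℤ) * v0 := Dvd.dvd.mul_right (Int.natCast_dvd_natCast.2 h3) _
    exact hw ((dvd_add_left h4).1 hpw)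

theorem t_P1 : S_P1 := by
  intro n v0 w α0 α hsum
  rw [Fin.sum_univ_succ] at hsum
  by_cases hg : ∑ i : Fin (n + 1), α i.succ * w i.succ = 0
  · rw [hg, add_zero] at hsum
    refine ⟨Fin.cons 0 (Fin.cons (α0 * (1 - w 1)) fun _ => 0),
      Fin.cons ((1 - w 1) * α 0) (Fin.cons 1 fun _ => 0), ?_⟩
    rw [Fin.sum_univ_succ, Fin.sum_univ_succ]
    simp only [Fin.cons_zero, Fin.cons_succ, zero_mul, Finset.sum_const_zero, add_zero, one_mul]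
    have h1 : (Fin.succ 0 : Fin (n + 2)) = 1 := rfl
    rw [h1]
    linear_combination (1 - w 1) * hsum
  · obtain ⟨x0, hx0⟩ := exists_coprime_shift (w 0) v0 _ hg (by
      intro p hp h1 h2 h3
      have h4 : (p : ℤ) ∣ 1 := by
        rw [← hsum]
        exact dvd_add (Dvd.dvd.mul_left h3 _) (dvd_add (Dvd.dvd.mul_left h2 _) h1)
      exact (Nat.prime_iff_prime_int.1 hp).not_dvd_one h4)
    obtain ⟨s, t, hst⟩ := hx0
    refine ⟨Fin.cons x0 fun _ => 0, Fin.cons s fun i => t * α i.succ, ?_⟩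
    rw [Fin.sum_univ_succ]
    simp only [Fin.cons_zero, Fin.cons_succ, zero_mul, add_zero]
    rw [← hst, Finset.mul_sum]
    congr 1
    refine Finset.sum_congr rfl fun i _ => ?_
    ring

end Pool.Agent.T2h20.UT
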