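import Pool.Agent.T2h20.UT.Stm

/-! Task P2 (helper78): peeling off the first row and column. -/

namespace Pool.Agent.T2h20.UT

open Matrix

theorem blk_inj' {m k N : ℕ} (h : m + k = N)
    {A A' : Matrix (Fin m) (Fin m) ℤ} {B B' : Matrix (Fin m) (Fin k) ℤ}
    {C C' : Matrix (Fin k) (Fin m) ℤ} {D D' : Matrix (Fin k) (Fin k) ℤ}
    (hh : blk h A B C D = blk h A' B' C' D') : A = A' ∧ B = B' ∧ C = C' ∧ D = D' := by
  subst h
  unfold blk at hh
  have h1 := congrArg (fun M => M.submatrix (finSumFinEquiv (m := m) (n := k))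
    (finSumFinEquiv (m := m) (n := k))) hh
  simp only [Matrix.submatrix_submatrix] at h1
  have h2 : ((finCongr (rfl : m + k = m + k)).symm.trans finSumFinEquiv.symm) ∘
      (finSumFinEquiv (m := m) (n := k)) = id := by
    funext i
    simp
  rw [h2, Matrix.submatrix_id_id, Matrix.submatrix_id_id, Matrix.fromBlocks_inj] at h1
  exact h1

theorem t_P2 (h1 : S_P1) : S_P2 := by
  intro n h A hA
  obtain ⟨a, r, w, A1, rfl⟩ := blk_exists h A
  -- left inverse
  obtain ⟨a', r', w', A1', hinv⟩ := blk_exists h (blk h a r w A1)⁻¹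
  have hu : IsUnit (blk h a r w A1).det := by rw [hA]; exact isUnit_one
  have hl : (blk h a r w A1)⁻¹ * blk h a r w A1 = 1 := Matrix.nonsing_inv_mul _ hu
  rw [hinv, blk_mul, ← blk_one h] at hl
  have hcor := (blk_inj' h hl).1
  have hcor0 := congrFun (congrFun hcor 0) 0
  rw [Matrix.add_apply, Matrix.mul_apply, Matrix.mul_apply, Fin.sum_univ_one,
    Matrix.one_apply_eq] at hcor0
  obtain ⟨x, y0, hxy⟩ := h1 n (a 0 0) (fun i => w i 0) (a' 0 0) (fun i => r' 0 i) hcor0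
  obtain ⟨X, hX⟩ : ∃ X : Matrix (Fin (n + 2)) (Fin 1) ℤ, X = Matrix.of fun i _ => x i := ⟨_, rfl⟩
  obtain ⟨y, hy⟩ : ∃ y : Matrix (Fin 1) (Fin (n + 2)) ℤ,
    y = Matrix.of fun _ i => (1 - a 0 0) * y0 i := ⟨_, rfl⟩
  obtain ⟨W, hW⟩ : ∃ W : Matrix (Fin (n + 2)) (Fin 1) ℤ, W = w + X * a := ⟨_, rfl⟩
  obtain ⟨A2, hA2⟩ : ∃ A2 : Matrix (Fin (n + 2)) (Fin (n + 2)) ℤ, A2 = X * r + A1 := ⟨_, rfl⟩
  obtain ⟨R, hR⟩ : ∃ R : Matrix (Fin 1) (Fin (n + 2)) ℤ, R = r + y * A2 := ⟨_, rfl⟩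
  obtain ⟨A', hA'⟩ : ∃ A' : Matrix (Fin (n + 2)) (Fin (n + 2)) ℤ, A' = A2 - W * R := ⟨_, rfl⟩
  have hyW : a + y * W = 1 := by
    ext i j
    have hi : i = 0 := Subsingleton.elim _ _
    have hj : j = 0 := Subsingleton.elim _ _
    subst hi hj
    rw [Matrix.add_apply, Matrix.mul_apply, Matrix.one_apply_eq]
    have e1 : ∀ k : Fin (n + 2), y 0 k * W k 0 =
        (1 - a 0 0) * (y0 k * (w k 0 + x k * a 0 0)) := by
      intro k
      rw [hy, hW, hX, Matrix.add_apply, Matrix.mul_apply, Fin.sum_univ_one, Matrix.of_apply,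
        Matrix.of_apply]
      ring
    rw [Finset.sum_congr rfl fun k _ => e1 k, ← Finset.mul_sum, hxy]
    ring
  have hmain : blk h a r w A1 = blk h 1 0 (-X) 1 * blk h 1 (-y) 0 1 * blk h 1 0 W 1 *
      blk h 1 0 0 A' * blk h 1 R 0 1 := by
    have s0 : blk h 1 0 0 A' * blk h 1 R 0 1 = blk h 1 R 0 A' := by
      rw [blk_mul]
      exact blk_inj h (by simp) (by simp) (by simp) (by simp)
    have s1 : blk h 1 0 W 1 * blk h 1 R 0 A' = blk h 1 R W A2 := by
      rw [blk_mul]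
      refine blk_inj h (by simp) (by simp) (by simp) ?_
      rw [hA', Matrix.one_mul]
      abel
    have s2 : blk h 1 (-y) 0 1 * blk h 1 R W A2 = blk h a r W A2 := by
      rw [blk_mul]
      refine blk_inj h ?_ ?_ (by simp) (by simp)
      · rw [Matrix.neg_mul, Matrix.one_mul]
        rw [← sub_eq_add_neg, sub_eq_iff_eq_add]
        exact hyW.symm
      · rw [hR, Matrix.one_mul, Matrix.neg_mul]
        abel
    have s3 : blk h 1 0 (-X) 1 * blk h a r W A2 = blk h a r w A1 := by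
      rw [blk_mul]
      refine blk_inj h (by simp) (by simp) ?_ ?_
      · rw [hW, Matrix.one_mul, Matrix.neg_mul]
        abel
      · rw [hA2, Matrix.one_mul, Matrix.neg_mul]
        abel
    rw [Matrix.mul_assoc _ (blk h 1 0 0 A') (blk h 1 R 0 1), s0, Matrix.mul_assoc _ (blk h 1 0 W 1),
      s1, Matrix.mul_assoc, s2, s3]
  refine ⟨blk h 1 0 (-X) 1, -y, W, R, A', Lo_blk h Lo_one Lo_one, ?_, hmain⟩
  rw [hmain] at hA
  simp only [Matrix.det_mul, det_blk_low, det_blk_up, Matrix.det_one, one_mul, mul_one] at hA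
  exact hA

end Pool.Agent.T2h20.UT
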