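import Pool.Agent.T2h20.UT.T_J
import Pool.Agent.T2h20.UT.T_B
import Pool.Agent.T2h20.UT.T_EV
import Pool.Agent.T2h20.UT.T_OD
import Pool.Agent.T2h20.UT.T_A4
import Pool.Agent.T2h20.UT.T_NTA
import Pool.Agent.T2h20.UT.T_NTB
import Pool.Agent.T2h20.UT.T_NTC
import Pool.Agent.T2h20.UT.T_NTD
import Pool.Agent.T2h20.UT.T_P1
import Pool.Agent.T2h20.UT.T_P2
import Pool.Agent.T2h20.UT.T_IND
import Pool.Agent.T2h20.UT.T_BASE
import Pool.Agent.T2h20.UT.T_MAIN

/-! Final assembly of project UT. -/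

namespace Pool.Agent.T2h20.UT

open Matrix

theorem det_Up {n : ℕ} {A : Matrix (Fin n) (Fin n) ℤ} (hA : Up A) : A.det = 1 := by
  have hT : A.BlockTriangular id := fun i j hij => hA.1 i j hij
  rw [Matrix.det_of_isUpperTriangular hT]
  exact Finset.prod_eq_one fun i _ => hA.2 i

theorem det_Lo {n : ℕ} {A : Matrix (Fin n) (Fin n) ℤ} (hA : Lo A) : A.det = 1 := by
  rw [← Matrix.det_transpose]
  exact det_Up (Lo_tr hA)

theorem base : S_BASE :=
  t_BASE t_J (t_A4 t_J t_B t_EV t_OD) (t_NTD t_NTA t_NTB t_NTC)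

theorem main : S_MAIN := t_MAIN (t_IND (t_P2 t_P1)) base

end Pool.Agent.T2h20.UT
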