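import Mathlib

/-!
Project UT (problem MP_efa98f_al): SL(n,Z) = (U U^-)^3 for every n >= 6.
Basic definitions and block calculus.
-/

namespace Pool.Agent.T2h20.UT

open Matrix

/-- lower unitriangular integer matrices -/
def Lo {n : ℕ} (M : Matrix (Fin n) (Fin n) ℤ) : Prop :=
  (∀ i j, i < j → M i j = 0) ∧ ∀ i, M i i = 1

/-- upper unitriangular integer matrices -/
def Up {n : ℕ} (M : Matrix (Fin n) (Fin n) ℤ) : Prop :=
  (∀ i j, j < i → M i j = 0) ∧ ∀ i, M i i = 1

/-- the 2x2 block matrix `(A B; C D)` as a matrix on `Fin N`, where `N = m + k`. -/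
def blk {m k N : ℕ} (h : m + k = N) (A : Matrix (Fin m) (Fin m) ℤ) (B : Matrix (Fin m) (Fin k) ℤ)
    (C : Matrix (Fin k) (Fin m) ℤ) (D : Matrix (Fin k) (Fin k) ℤ) :
    Matrix (Fin N) (Fin N) ℤ :=
  (Matrix.fromBlocks A B C D).submatrix
    ((finCongr h).symm.trans finSumFinEquiv.symm) ((finCongr h).symm.trans finSumFinEquiv.symm)

/-- elementary lower 2x2 matrix -/
def lo (t : ℤ) : Matrix (Fin 2) (Fin 2) ℤ := !![1, 0; t, 1]

/-- elementary upper 2x2 matrix -/
def up (s : ℤ) : Matrix (Fin 2) (Fin 2) ℤ := !![1, s; 0, 1]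

/-- `A` is a product of four unitriangular matrices lower, upper, lower, upper. -/
def LU2 {n : ℕ} (A : Matrix (Fin n) (Fin n) ℤ) : Prop :=
  ∃ l1 u1 l2 u2 : Matrix (Fin n) (Fin n) ℤ, Lo l1 ∧ Up u1 ∧ Lo l2 ∧ Up u2 ∧
    A = l1 * u1 * l2 * u2

theorem blk_mul {m k N : ℕ} (h : m + k = N)
    (A A' : Matrix (Fin m) (Fin m) ℤ) (B B' : Matrix (Fin m) (Fin k) ℤ)
    (C C' : Matrix (Fin k) (Fin m) ℤ) (D D' : Matrix (Fin k) (Fin k) ℤ) :
    blk h A B C D * blk h A' B' C' D' =
      blk h (A * A' + B * C') (A * B' + B * D') (C * A' + D * C') (C * B' + D * D') := by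
  unfold blk
  rw [Matrix.submatrix_mul_equiv, Matrix.fromBlocks_multiply]

theorem blk_one {m k N : ℕ} (h : m + k = N) : blk h 1 0 0 1 = (1 : Matrix (Fin N) (Fin N) ℤ) := by
  unfold blk
  rw [Matrix.fromBlocks_one, Matrix.submatrix_one_equiv]

theorem blk_inj {m k N : ℕ} (h : m + k = N)
    {A A' : Matrix (Fin m) (Fin m) ℤ} {B B' : Matrix (Fin m) (Fin k) ℤ}
    {C C' : Matrix (Fin k) (Fin m) ℤ} {D D' : Matrix (Fin k) (Fin k) ℤ}
    (hA : A = A') (hB : B = B') (hC : C = C') (hD : D = D') :
    blk h A B C D = blk h A' B' C' D' := by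
  rw [hA, hB, hC, hD]

/-- every matrix is a block matrix -/
theorem blk_exists {m k N : ℕ} (h : m + k = N) (M : Matrix (Fin N) (Fin N) ℤ) :
    ∃ A B C D, M = blk h A B C D := by
  subst h
  let M' := M.submatrix (finSumFinEquiv (m := m) (n := k)) (finSumFinEquiv (m := m) (n := k))
  refine ⟨M'.toBlocks₁₁, M'.toBlocks₁₂, M'.toBlocks₂₁, M'.toBlocks₂₂, ?_⟩
  unfold blk
  rw [Matrix.fromBlocks_toBlocks]
  ext i j
  simp [M']

theorem det_blk_low {m k N : ℕ} (h : m + k = N)
    (A : Matrix (Fin m) (Fin m) ℤ) (C : Matrix (Fin k) (Fin m) ℤ) (D : Matrix (Fin k) (Fin k) ℤ) :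
    (blk h A 0 C D).det = A.det * D.det := by
  unfold blk
  rw [Matrix.det_submatrix_equiv_self, Matrix.det_fromBlocks_zero₁₂]

theorem det_blk_up {m k N : ℕ} (h : m + k = N)
    (A : Matrix (Fin m) (Fin m) ℤ) (B : Matrix (Fin m) (Fin k) ℤ) (D : Matrix (Fin k) (Fin k) ℤ) :
    (blk h A B 0 D).det = A.det * D.det := by
  unfold blk
  rw [Matrix.det_submatrix_equiv_self, Matrix.det_fromBlocks_zero₂₁]

theorem Lo_blk {m k N : ℕ} (h : m + k = N)
    {A : Matrix (Fin m) (Fin m) ℤ} {C : Matrix (Fin k) (Fin m) ℤ} {D : Matrix (Fin k) (Fin k) ℤ}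
    (hA : Lo A) (hD : Lo D) : Lo (blk h A 0 C D) := by
  subst h
  constructor
  · intro i j hij
    induction i using Fin.addCases with
    | left i =>
      induction j using Fin.addCases with
      | left j =>
        have : i < j := hij
        simpa [blk] using hA.1 i j this
      | right j => simp [blk]
    | right i =>
      induction j using Fin.addCases with
      | left j =>
        exfalso
        have h1 : (Fin.natAdd m i).val < (Fin.castAdd k j).val := hij
        simp at h1
        have := j.isLt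
        omega
      | right j =>
        have : i < j := by simpa using hij
        simpa [blk] using hD.1 i j this
  · intro i
    induction i using Fin.addCases with
    | left i => simpa [blk] using hA.2 i
    | right i => simpa [blk] using hD.2 i

theorem Up_blk {m k N : ℕ} (h : m + k = N)
    {A : Matrix (Fin m) (Fin m) ℤ} {B : Matrix (Fin m) (Fin k) ℤ} {D : Matrix (Fin k) (Fin k) ℤ}
    (hA : Up A) (hD : Up D) : Up (blk h A B 0 D) := by
  subst h
  constructor
  · intro i j hij
    induction i using Fin.addCases with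
    | left i =>
      induction j using Fin.addCases with
      | left j =>
        have : j < i := hij
        simpa [blk] using hA.1 i j this
      | right j =>
        exfalso
        have h1 : (Fin.natAdd m j).val < (Fin.castAdd k i).val := hij
        simp at h1
        have := i.isLt
        omega
    | right i =>
      induction j using Fin.addCases with
      | left j => simp [blk]
      | right j =>
        have : j < i := by simpa using hij
        simpa [blk] using hD.1 i j this
  · intro i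
    induction i using Fin.addCases with
    | left i => simpa [blk] using hA.2 i
    | right i => simpa [blk] using hD.2 i

theorem Lo_one {n : ℕ} : Lo (1 : Matrix (Fin n) (Fin n) ℤ) :=
  ⟨fun i j hij => Matrix.one_apply_ne hij.ne, fun i => Matrix.one_apply_eq i⟩

theorem Up_one {n : ℕ} : Up (1 : Matrix (Fin n) (Fin n) ℤ) :=
  ⟨fun i j hij => Matrix.one_apply_ne hij.ne', fun i => Matrix.one_apply_eq i⟩

theorem Up_tr {n : ℕ} {A : Matrix (Fin n) (Fin n) ℤ} (hA : Up A) : Lo A.transpose :=
  ⟨fun i j hij => hA.1 j i hij, fun i => hA.2 i⟩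

theorem Lo_tr {n : ℕ} {A : Matrix (Fin n) (Fin n) ℤ} (hA : Lo A) : Up A.transpose :=
  ⟨fun i j hij => hA.1 j i hij, fun i => hA.2 i⟩

theorem Up_mul {n : ℕ} {A B : Matrix (Fin n) (Fin n) ℤ} (hA : Up A) (hB : Up B) : Up (A * B) := by
  constructor
  · intro i j hij
    rw [Matrix.mul_apply]
    refine Finset.sum_eq_zero fun k _ => ?_
    rcases lt_or_ge k i with hk | hk
    · rw [hA.1 i k hk, zero_mul]
    · rw [hB.1 k j (lt_of_lt_of_le hij hk), mul_zero]
  · intro i
    rw [Matrix.mul_apply, Finset.sum_eq_single i]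
    · rw [hA.2, hB.2, mul_one]
    · intro k _ hk
      rcases lt_or_gt_of_ne hk with hk | hk
      · rw [hA.1 i k hk, zero_mul]
      · rw [hB.1 k i hk, mul_zero]
    · simp

theorem Lo_mul {n : ℕ} {A B : Matrix (Fin n) (Fin n) ℤ} (hA : Lo A) (hB : Lo B) : Lo (A * B) := by
  have := Up_tr (Up_mul (Lo_tr hB) (Lo_tr hA))
  rwa [Matrix.transpose_mul, Matrix.transpose_transpose, Matrix.transpose_transpose] at this

theorem Up_inv {n : ℕ} {A : Matrix (Fin n) (Fin n) ℤ} (hA : Up A) :
    ∃ B : Matrix (Fin n) (Fin n) ℤ, Up B ∧ A * B = 1 ∧ B * A = 1 := by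
  have hT : A.BlockTriangular id := fun i j hij => hA.1 i j hij
  have hdet : A.det = 1 := by
    rw [Matrix.det_of_isUpperTriangular hT]
    exact Finset.prod_eq_one fun i _ => hA.2 i
  have hu : IsUnit A.det := by rw [hdet]; exact isUnit_one
  haveI : Invertible A := Matrix.invertibleOfIsUnitDet A hu
  have h1 : A * A⁻¹ = 1 := Matrix.mul_nonsing_inv A hu
  have h2 : A⁻¹ * A = 1 := Matrix.nonsing_inv_mul A hu
  have hT' : A⁻¹.BlockTriangular id := Matrix.blockTriangular_inv_of_blockTriangular hT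
  refine ⟨A⁻¹, ⟨fun i j hij => hT' hij, fun i => ?_⟩, h1, h2⟩
  have h3 : (A⁻¹ * A) i i = 1 := by rw [h2]; exact Matrix.one_apply_eq i
  rw [Matrix.mul_apply, Finset.sum_eq_single i] at h3
  · rwa [hA.2, mul_one] at h3
  · intro k _ hk
    rcases lt_or_gt_of_ne hk with hk | hk
    · rw [hT' (show id k < id i from hk), zero_mul]
    · rw [hA.1 k i hk, mul_zero]
  · simp

theorem Lo_inv {n : ℕ} {A : Matrix (Fin n) (Fin n) ℤ} (hA : Lo A) :
    ∃ B : Matrix (Fin n) (Fin n) ℤ, Lo B ∧ A * B = 1 ∧ B * A = 1 := by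
  obtain ⟨B, hB, h1, h2⟩ := Up_inv (Lo_tr hA)
  refine ⟨B.transpose, Up_tr hB, ?_, ?_⟩
  · have := congrArg Matrix.transpose h2
    rwa [Matrix.transpose_mul, Matrix.transpose_transpose, Matrix.transpose_one] at this
  · have := congrArg Matrix.transpose h1
    rwa [Matrix.transpose_mul, Matrix.transpose_transpose, Matrix.transpose_one] at this

theorem Lo_lo (t : ℤ) : Lo (lo t) := by
  constructor
  · intro i j hij
    fin_cases i <;> fin_cases j <;> simp [lo] at hij ⊢
  · intro i; fin_cases i <;> simp [lo]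

theorem Up_up (t : ℤ) : Up (up t) := by
  constructor
  · intro i j hij
    fin_cases i <;> fin_cases j <;> simp [up] at hij ⊢
  · intro i; fin_cases i <;> simp [up]

theorem lo_mul (s t : ℤ) : lo s * lo t = lo (s + t) := by
  simp [lo, Matrix.mul_fin_two]

theorem up_mul (s t : ℤ) : up s * up t = up (s + t) := by
  simp [up, Matrix.mul_fin_two, add_comm]

theorem lo_zero : lo 0 = 1 := by
  simp [lo, Matrix.one_fin_two]

theorem up_zero : up 0 = 1 := by
  simp [up, Matrix.one_fin_two]

theorem blk1_apply {m k N : ℕ} (h : m + k = N) (B : Matrix (Fin k) (Fin k) ℤ) (i j : Fin N) :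
    blk h (1 : Matrix (Fin m) (Fin m) ℤ) 0 0 B i j =
      if hij : m ≤ i.val ∧ m ≤ j.val then
        B ⟨i.val - m, by have := i.isLt; omega⟩ ⟨j.val - m, by have := j.isLt; omega⟩
      else if i = j then 1 else 0 := by
  subst h
  induction i using Fin.addCases with
  | left i =>
    have h1 : ¬ (m ≤ (Fin.castAdd k i).val ∧ m ≤ j.val) := by
      intro hh; have := i.isLt; have h2 := hh.1; simp at h2; omega
    rw [dif_neg h1]
    induction j using Fin.addCases with
    | left j =>
      simp [blk, Matrix.one_apply]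
    | right j =>
      have h3 : Fin.castAdd k i ≠ Fin.natAdd m j := by
        intro hh; have := congrArg Fin.val hh; simp at this; have := i.isLt; omega
      rw [if_neg h3]; simp [blk]
  | right i =>
    induction j using Fin.addCases with
    | left j =>
      have h1 : ¬ (m ≤ (Fin.natAdd m i).val ∧ m ≤ (Fin.castAdd k j).val) := by
        intro hh; have := j.isLt; have h2 := hh.2; simp at h2; omega
      rw [dif_neg h1]
      have h3 : Fin.natAdd m i ≠ Fin.castAdd k j := by
        intro hh; have := congrArg Fin.val hh; simp at this; have := j.isLt; omega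
      rw [if_neg h3]; simp [blk]
    | right j =>
      have h1 : (m ≤ (Fin.natAdd m i).val ∧ m ≤ (Fin.natAdd m j).val) := by
        constructor <;> simp
      rw [dif_pos h1]
      simp [blk]

/-- associativity of blocks: `1_a + (1_b + B) = 1_(a+b) + B`. -/
theorem blk_assoc {a b k M N : ℕ} (h : a + M = N) (h' : b + k = M) (h'' : (a + b) + k = N)
    (B : Matrix (Fin k) (Fin k) ℤ) :
    blk h (1 : Matrix (Fin a) (Fin a) ℤ) 0 0 (blk h' (1 : Matrix (Fin b) (Fin b) ℤ) 0 0 B) =
      blk h'' (1 : Matrix (Fin (a + b)) (Fin (a + b)) ℤ) 0 0 B := by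
  ext i j
  rw [blk1_apply, blk1_apply]
  by_cases h1 : a + b ≤ i.val ∧ a + b ≤ j.val
  · have h2 : a ≤ i.val ∧ a ≤ j.val := by omega
    rw [dif_pos h1, dif_pos h2, blk1_apply]
    have h3 : b ≤ i.val - a ∧ b ≤ j.val - a := by omega
    rw [dif_pos h3]
    congr 1 <;> · apply Fin.ext; simp; omega
  · rw [dif_neg h1]
    by_cases h2 : a ≤ i.val ∧ a ≤ j.val
    · rw [dif_pos h2, blk1_apply]
      have h3 : ¬ (b ≤ i.val - a ∧ b ≤ j.val - a) := by omega
      rw [dif_neg h3]
      have h4 : ((⟨i.val - a, by have := i.isLt; omega⟩ : Fin M) =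
        ⟨j.val - a, by have := j.isLt; omega⟩) ↔ i = j := by
        rw [Fin.mk.injEq]
        constructor
        · intro hh; apply Fin.ext; omega
        · intro hh; rw [hh]
      simp only [h4]
    · rw [dif_neg h2]

end Pool.Agent.T2h20.UT
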