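import Pool.Agent.T2h20.UT.Def

/-!
Project UT (problem MP_efa98f_al): SL(n,Z) = (U U^-)^3 for every n >= 6.
All statements, with complete proofs in the docstrings.  Every task is one theorem
`t_X (inputs) : S_X`; inputs are given as hypotheses.  The whole construction has been checked
numerically (python) on many examples, including every formula below.
-/

namespace Pool.Agent.T2h20.UT

open Matrix

/-- J (jump lemma, block computation).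
PROOF. Write `l1', u1', l2', u2', q'` for the inverses of `l1, u1, l2, u2, q` (`Lo_inv`, `Up_inv`).
`N = (1 + Y X) M1 = l1 u1 l2 u2` is invertible, `N' = u2' l2' u1' l1'`; `M1` is invertible (it has
the left inverse `N' (1 + Y X)`; square matrices: `Matrix.mul_eq_one_comm`), hence `1 + Y X` is
invertible with inverse `K := M1 N'` (`K (1 + Y X) = 1 = (1 + Y X) K`), and `K Y (1 + X Y) = Y`
because `Y (1 + X Y) = (1 + Y X) Y`.  Let `W = q' X M1 u2'` and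
`V = l2' u1' l1' Y (1 + X Y) q l u`.  Then
`blk M1 0 0 M2 = blk l1 0 (-p X l1) p * blk u1 (-l1' Y q) 0 q * blk l2 0 W l * blk u2 V 0 u`.
Check: it is easier to verify the equivalent identity obtained by moving the first two factors
to the left: with `G = u1' l1'`,
`blk G (..)`: `blk u1' (G Y p') 0' ..`; in detail `(blk u1 (-l1' Y q) 0 q)^-1 (blk l1 0 (-p X l1) p)^-1
 = blk (G (1+YX)) (G Y p') (q' X) (q' p')`, and
`blk (G (1+YX)) (G Y p') (q' X) (q' p') * blk M1 0 0 M2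
   = blk (l2 u2) (G Y (1+XY) q l u) (q' X M1) (q' (1+XY) q l u)
   = blk l2 0 W l * blk u2 V 0 u`
(lower right corner: `W V + l u = q' X M1 u2' l2' u1' l1' Y (1+XY) q l u + l u
 = q' X K Y (1+XY) q l u + l u = q' X Y q l u + l u = q' (1 + X Y) q l u`).
Lower/upper unitriangularity of the four factors: `Lo_blk`, `Up_blk`. -/
def S_J : Prop := ∀ (m k N : ℕ) (h : m + k = N)
  (M1 : Matrix (Fin m) (Fin m) ℤ) (M2 : Matrix (Fin k) (Fin k) ℤ)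
  (X : Matrix (Fin k) (Fin m) ℤ) (Y : Matrix (Fin m) (Fin k) ℤ)
  (l1 u1 l2 u2 : Matrix (Fin m) (Fin m) ℤ) (p q l u : Matrix (Fin k) (Fin k) ℤ),
  Lo l1 → Up u1 → Lo l2 → Up u2 → Lo p → Up q → Lo l → Up u →
  (1 + Y * X) * M1 = l1 * u1 * l2 * u2 → M2 = p * (1 + X * Y) * q * l * u →
  LU2 (blk h M1 0 0 M2)

/-- B (block product).
PROOF. `S1 = 1 + X1 Y1`, `M1 = 1 + Y1 X1` has det 1 too (`Matrix.det_one_add_mul_comm`), let `M1'`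
be its inverse.  Take `X = [X1, S1 X2]` (columns) and `Y = [Y1; Y2]` (rows), i.e.
`X = (Matrix.fromCols X1 (S1 * X2)).submatrix id e`, `Y = (Matrix.fromRows Y1 Y2).submatrix e id`
with the equivalence `e` of the definition of `blk` (first `subst h`).  Then
`1 + X Y = 1 + X1 Y1 + S1 X2 Y2 = S1 (1 + X2 Y2)` and
`1 + Y X = blk M1 (Y1 S1 X2) (Y2 X1) (1 + Y2 S1 X2)
   = blk 1 0 (Y2 X1 M1') 1 * blk M1 0 0 (1 + Y2 X2) * blk 1 (M1' Y1 S1 X2) 0 1`,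
because `X1 M1' Y1 S1 = X1 M1' M1 Y1 = X1 Y1 = S1 - 1` (`Y1 S1 = M1 Y1`), so the lower right corner
is `Y2 (X1 M1' Y1 S1) X2 + 1 + Y2 X2 = Y2 (S1 - 1) X2 + 1 + Y2 X2`.  Absorb the first factor
in the first lower factor and the last one in the last upper factor (`Lo_mul`, `Up_mul`). -/
def S_B : Prop := ∀ (k m1 m2 N : ℕ) (h : m1 + m2 = N)
  (X1 : Matrix (Fin k) (Fin m1) ℤ) (Y1 : Matrix (Fin m1) (Fin k) ℤ)
  (X2 : Matrix (Fin k) (Fin m2) ℤ) (Y2 : Matrix (Fin m2) (Fin k) ℤ),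
  (1 + X1 * Y1).det = 1 →
  LU2 (blk h (1 + Y1 * X1) 0 0 (1 + Y2 * X2)) →
  ∃ (X : Matrix (Fin k) (Fin N) ℤ) (Y : Matrix (Fin N) (Fin k) ℤ),
    1 + X * Y = (1 + X1 * Y1) * (1 + X2 * Y2) ∧ LU2 (1 + Y * X)

/-- EV (even powers).
PROOF. By Cayley-Hamilton (induction on k) there are integers `f, g` with
`V^k = f + g V = !![x, g b; g c, z]`, `x = f + g a`, `z = f + g d`, so `x - z = g δ`, `δ = a - d`,
and `x = a^k mod b` (induction: the (1,1) entry of `V^k` is `a^k` mod `b`; or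
`V^(k+1) 0 0 = V^k 0 0 * a + V^k 0 1 * c` and `b ∣ V^k 0 1`), hence `x = σ + b κ`; `det = 1`:
`x z - g^2 b c = 1`.  So `z = σ mod b` (`z = z (σ x - σ b κ) ...`), put `t = x + z = 2 σ + b κ'`.
`V^(2k) = (V^k)^2 = !![t x - 1, t g b; t g c, t z - 1]`, and
`t x - 2 = g (2 g b c + x δ)`, `t z - 2 = g (2 g b c - z δ)`.
`X0 = !![t x - 2, t b; t g c, 2 g b c - z δ]`, `Y0 = !![1, 0; 0, g]`: `X0 Y0 = V^(2k) - 1`.
`M = 1 + Y0 X0 = !![t x - 1, t b; t g^2 c, t z - 1]`, `γ = t g^2 c - κ (t z - 1)`,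
`δ1 = t z - 1 - σ b γ`, `g2 = γ - κ' δ1`; then
`M = lo g2 * up (σ b) * lo κ' * up (σ b) * lo κ`
(since `M lo(-κ) = !![t σ - 1, t b; γ, t z - 1]`, times `up(-σ b)` = `!![t σ - 1, σ b; γ, δ1]`,
times `lo(-κ')` = `!![1, σ b; g2, δ1]`, and `δ1 = 1 + σ b g2` by det = 1).
Answer: `X = X0 * lo (-κ)`, `Y = lo κ * Y0`, `t1 = κ + g2, s1 = σ b, t2 = κ', s2 = σ b`. -/
def S_EV : Prop := ∀ (a b c d : ℤ) (k : ℕ) (σ : ℤ), a * d - b * c = 1 → (σ = 1 ∨ σ = -1) →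
  b ∣ a ^ k - σ →
  ∃ (X Y : Matrix (Fin 2) (Fin 2) ℤ) (t1 s1 t2 s2 : ℤ),
    1 + X * Y = !![a, b; c, d] ^ (2 * k) ∧
    1 + Y * X = lo t1 * up s1 * lo t2 * up s2

/-- OD (odd powers).
PROOF. `V = !![a, b; c, d]`, `V^k = f + g V`, `V^(k+1) = f' + g' V` (integers; `g' = τ g + f`,
`f' = -g`, `τ = a + d`), `P = g' + g`, `Q = g' - g`.  Facts (Chebyshev / Cayley-Hamilton, by
induction or from `g'^2 - τ g g' + g^2 = 1`): `V^(2k+1) = 1 + P • ((V - 1) * V^k)` and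
`V^(2k+1) = -1 + Q • ((V + 1) * V^k)`, and `V^(2k+1) = !![A, P Q b; P Q c, D]`.
`κ = ((V + 1) V^k) 0 0`, `A = Q κ - 1`, `D = 1 + P e` with `e = ((V - 1) V^k) 1 1`.
`X0 = !![A - 1, Q b; P Q c, e]`, `Y0 = !![1, 0; 0, P]`: `X0 Y0 = V^(2k+1) - 1`;
`M = 1 + Y0 X0 = !![A, Q b; P^2 Q c, D]`.
`A = a^(2k+1) mod b`, so `b ∣ A + 1 = Q κ` and (`b` prime) `b ∣ Q` or `b ∣ κ`.
Case `Q = b Q1`: `v = (b; -κ)`, `w = (κ, b)`, `w v = 0`, `T0 = 1 + Q1 v w`,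
`M T0 = !![-1, 0; γ, -1]` (first row by computation, lower right by det = 1), `T0^-1 = 1 - Q1 v w`.
So `M = !![-1,0;γ,-1] * (1 - Q1 v w)`; with `X' = -Q1 • (lo (-1) v)` (2x1), `Y' = w lo(1)` (1x2):
`Y' X' = 0` and `M = lo (1 - γ) * (1 + X' Y') * up (-2) * lo 1 * up (-2)` (because
`-1 = lo 1 * up (-2) * lo 1 * up (-2)` and `lo (-γ) (1 - Q1 v w) lo 1 = lo (1-γ) (1 + X' Y')`).
Answer `X = X0, Y = Y0, p = 1 - γ, q = -2, l = 1, u = -2`.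
Case `κ = b κ1`: `M lo(-κ1) = !![-1, Q b; γ, *]`, so
`M = lo (-γ) * (-1) * up (-Q b) * lo κ1`.  Answer: `X = X0 * lo (-κ1)`, `Y = lo κ1 * Y0`,
`1 + Y X = lo κ1 * M * lo (-κ1) = lo (κ1 - γ) * (-1) * up (-Q b)`, `X' = 0`, `Y' = 0`,
`p = κ1 - γ + 1`, `q = -2`, `l = 1`, `u = -2 - Q b`. -/
def S_OD : Prop := ∀ (a b c d : ℤ) (k : ℕ), a * d - b * c = 1 → Prime b →
  b ∣ a ^ (2 * k + 1) + 1 →
  ∃ (X Y : Matrix (Fin 2) (Fin 2) ℤ) (X' : Matrix (Fin 2) (Fin 1) ℤ)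
    (Y' : Matrix (Fin 1) (Fin 2) ℤ) (p q l u : ℤ),
    1 + X * Y = !![a, b; c, d] ^ (2 * k + 1) ∧ Y' * X' = 0 ∧
    1 + Y * X = lo p * (1 + X' * Y') * up q * lo l * up u

/-- A4 (assembly in rank 4), from J, B, EV, OD.
PROOF. `S = !![a, b; c, d]`.  EV for `S` gives `X1, Y1` with `1 + X1 Y1 = S^(2k)` and
`M1 := 1 + Y1 X1 = lo t1 up s1 lo t2 up s2`.  OD for the transpose `!![a, c; b, d]` and `k - 1`
(`2 (k-1) + 1 = 2 k - 1`) gives `X, Y, X', Y'` with `1 + X Y = (S^T)^(2k-1)`.  With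
`w = !![0, 1; -1, 0]`, `w' = !![0, -1; 1, 0]` (`w' w = 1`) one has `w' S^T w = S^-1`, so for
`X2 = w' X`, `Y2 = Y w`: `1 + X2 Y2 = w' (S^T)^(2k-1) w = S^-(2k-1)`, hence
`(1 + X1 Y1) (1 + X2 Y2) = S`; `M2 := 1 + Y2 X2 = 1 + Y X = lo p (1 + X' Y') up q lo l up u`
(`w w' = 1`).  By J with `m = k = 2`, `M1`, `M2`, and the rank one matrices
`X'' = X' (1 0)` (2x2, `X' * !![1, 0]`) and `Y'' = (1; 0) Y'` (2x2, `!![1; 0] * Y'`):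
`X'' Y'' = X' Y'`, `Y'' X'' = 0`, so `LU2 (blk rfl M1 0 0 M2)`.  By B (`k = 2, m1 = m2 = 2`) done;
`det (S^(2k)) = 1`. -/
def S_A4 : Prop := ∀ (a b c d : ℤ) (k : ℕ) (σ : ℤ), a * d - b * c = 1 → (σ = 1 ∨ σ = -1) → 1 ≤ k →
  b ∣ a ^ k - σ → Prime c → c ∣ a ^ (2 * k - 1) + 1 →
  ∃ (X : Matrix (Fin 2) (Fin 4) ℤ) (Y : Matrix (Fin 4) (Fin 2) ℤ),
    1 + X * Y = !![a, b; c, d] ∧ LU2 (1 + Y * X)

/-- NTA (a prime modulo which `a` is a non-residue).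
PROOF. Let `s = 1` if the Jacobi symbol `J(c1 | a) = 1`, `s = -1` if it is `-1` (it is not 0 by
coprimality).  `c' = s c1 + a (s c1 + 1)` is `= s c1 mod a` and `= 3 mod 4` (`a = -1 mod 4`), so it
is coprime to `4 a`; by Dirichlet (`Nat.forall_exists_prime_gt_and_eq_mod`) there is a prime
`π = c' mod 4a`.  `a ∣ s π - c1` (as `s s = 1`).  Quadratic reciprocity for Jacobi symbols with both
`a` and `π` 3 mod 4 (`jacobiSym.quadratic_reciprocity_three_mod_four`):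
`J(a | π) = - J(π | a) = - J(s c1 | a) = - J(s | a) J(c1 | a) = -1`, using `J(-1 | a) = -1` for
`a = 3 mod 4` (`jacobiSym.at_neg_one`, `ZMod.χ₄_nat_three_mod_four`).  So
`legendreSym π a = -1`, and `legendreSym.eq_pow` : `a^(π/2) = -1` in `ZMod π`;
`π / 2 = (π - 1) / 2`. -/
def S_NTA : Prop := ∀ (a : ℕ) (c1 : ℤ), 1 < a → a % 4 = 3 → IsCoprime (a : ℤ) c1 →
  ∃ (s : ℤ) (π : ℕ), (s = 1 ∨ s = -1) ∧ π.Prime ∧ π % 4 = 3 ∧ (a : ℤ) ∣ s * π - c1 ∧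
    (π : ℤ) ∣ (a : ℤ) ^ ((π - 1) / 2) + 1

/-- NTB (second prime).
PROOF. `h = (π - 1) / 2` is odd, `π = 2 h + 1`.  `β0 = -1 - 2 h s b1`: `β0 = -1 mod h`, and
`β0 = s b1 mod a` since `b1 s (2 h + 1) = -1 mod a`, i.e. `s b1 - β0 = s b1 (1 + 2 h) + 1`.
`β0` is coprime to `h` and to `a` (`s b1 * (s π) * s = ...`: `a ∣ b1 s π + 1` so `b1` is a unit mod `a`),
hence to `a h`; by Dirichlet there is a prime `β > 2` with `β = β0 mod a h`.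
`a ∣ s β - b1` (multiply `β = s b1 mod a` by `s`), and `β - 1 = -2 mod h` with `h` odd, so
`gcd (β - 1, h) = 1`. -/
def S_NTB : Prop := ∀ (a : ℕ) (b1 s : ℤ) (π : ℕ), 1 < a → (s = 1 ∨ s = -1) → π.Prime → π % 4 = 3 →
  (a : ℤ) ∣ b1 * (s * π) + 1 →
  ∃ β : ℕ, β.Prime ∧ 2 < β ∧ (a : ℤ) ∣ s * β - b1 ∧ Nat.Coprime (β - 1) ((π - 1) / 2)

/-- NTC (exponents).
PROOF. `h = (π - 1) / 2` is odd.  As `β - 1` and `h` are coprime there are naturals `r ≥ 1`, `t ≥ 1`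
with `r (β - 1) = 1 + t h` (if `h = 1` take `r = 1`, `t = β - 2`; in general `Nat.exists_mul_mod_eq_one_of_coprime`
or `Nat.exists_mul_emod_eq_one_of_coprime`, and add a multiple of `h` to `r`; `β - 1 ≥ 2`).  `β - 1` is even so
`t h` and hence `t` is odd.  `k = r (β - 1) / 2 ≥ 1`, `2 k - 1 = t h`.
`a^((β-1)/2) = 1` or `-1` mod `β` (`ZMod.pow_div_two_eq_neg_one_or_one`, `a` is not `0` mod `β`), so
`a^k = σ := (±1)^r`; and `a^(2k-1) = (a^h)^t = (-1)^t = -1` mod `π`. -/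
def S_NTC : Prop := ∀ (a : ℤ) (β π : ℕ), β.Prime → 2 < β → π.Prime → π % 4 = 3 →
  Nat.Coprime (β - 1) ((π - 1) / 2) → ¬ (β : ℤ) ∣ a → (π : ℤ) ∣ a ^ ((π - 1) / 2) + 1 →
  ∃ (k : ℕ) (σ : ℤ), 1 ≤ k ∧ (σ = 1 ∨ σ = -1) ∧ (β : ℤ) ∣ a ^ k - σ ∧
    (π : ℤ) ∣ a ^ (2 * k - 1) + 1

/-- NTD (number theory, final form), from NTA, NTB, NTC.
PROOF. Start with `B = !![a0, b0; c0, d0]`.  (1) There is `k0 ∈ {0, 1}` with `b1 = b0 + k0 a0` odd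
(`a0, b0` are not both even): `B up(k0) = !![a0, b1; c0, *]`.  (2) As `b1` is odd there is `k1` with
`a = a0 + k1 b1 = 3 mod 4` and `a > 1`: `B up(k0) lo(k1) = !![a, b1; c1, d1]`, det 1.
(3) `IsCoprime a c1`; NTA gives `s, π`; `c = s π = c1 + k2 a`.  `lo(k2) B up(k0) lo(k1) =
!![a, b1; c, d2]`, so `a d2 - b1 c = 1` and `a ∣ b1 (s π) + 1`.  (4) NTB gives `β`, `b = s β = b1 + k3 a`.
`S = lo(k2) B up(k0) lo(k1) up(k3) = !![a, b; c, d]`, `a d - b c = 1` so `β ∤ a`.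
(5) NTC gives `k, σ`.  `b ∣ a^k - σ` and `c ∣ a^(2k-1) + 1` because `b = ± β`, `c = ± π`;
`Prime c` from `π.Prime`.  Finally `B = lo(-k2) S up(-k3) lo(-k1) up(-k0)`. -/
def S_NTD : Prop := ∀ (a0 b0 c0 d0 : ℤ), a0 * d0 - b0 * c0 = 1 →
  ∃ (a b c d : ℤ) (k : ℕ) (σ p q l u : ℤ), a * d - b * c = 1 ∧ (σ = 1 ∨ σ = -1) ∧ 1 ≤ k ∧
    b ∣ a ^ k - σ ∧ Prime c ∧ c ∣ a ^ (2 * k - 1) + 1 ∧
    !![a0, b0; c0, d0] = lo p * !![a, b; c, d] * up q * lo l * up u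

/-- P1 (stable range of Z, in the form with one vector).
PROOF. Put `g = ∑_{i ≥ 1} α i w i`, so `α0 v0 + α_0 w_0 + g = 1` (`Fin.sum_univ_succ`).
Case `g ≠ 0`: there is `x0` with `gcd (w_0 + x0 v0, g) = 1`: take `x0` = the product of the primes
dividing `g` but not `w_0` (a prime dividing `g` and `w_0` does not divide `v0`; if `p ∣ g`,
`p ∤ w_0` then `p ∣ x0` and `p ∤ w_0 + x0 v0`; if `p ∣ g`, `p ∣ w_0` then `p ∤ x0 v0`).  With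
`s (w_0 + x0 v0) + t g = 1` put `x = (x0, 0, 0, ..)`, `y = (s, t α_1, t α_2, ..)`.
Case `g = 0`: `α0 v0 + α_0 w_0 = 1`.  Change `w_1` only: `x = (0, α0 (1 - w_1), 0, ..)`,
`y = ((1 - w_1) α_0, 1, 0, ..)`: `w_1 + x_1 v0 = w_1 + (1 - w_1)(1 - α_0 w_0)
 = 1 - (1 - w_1) α_0 w_0`. -/
def S_P1 : Prop := ∀ (n : ℕ) (v0 : ℤ) (w : Fin (n + 2) → ℤ) (α0 : ℤ) (α : Fin (n + 2) → ℤ),
  α0 * v0 + ∑ i, α i * w i = 1 →
  ∃ x y : Fin (n + 2) → ℤ, ∑ i, y i * (w i + x i * v0) = 1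

/-- P2 (peeling off the first row and column), from P1.
PROOF. `A = blk h a r w A1` (`blk_exists`), `a` is the 1x1 matrix `(v0)`, `w` the column below it.
The first column of `A` is unimodular (`A^-1 A = 1`; or use the (0,0) block of `A⁻¹ * A = 1`), so
P1 gives `x, y0` with `∑ y0_i (w_i + x_i v0) = 1`.  Put `w' = w + x v0`,
`y = (1 - v0) • y0` (row).  `blk 1 0 x 1 * A = blk a r w' A2`; times `blk 1 y 0 1` on the left:
`blk 1 r' w' A2` (`v0 + (1 - v0) = 1`); times `blk 1 0 (-w') 1` on the left: `blk 1 r' 0 A'`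
`= blk 1 0 0 A' * blk 1 r' 0 1`.  So
`A = blk 1 0 (-x) 1 * blk 1 (-y) 0 1 * blk 1 0 w' 1 * blk 1 0 0 A' * blk 1 r' 0 1` and
`det A' = 1` (`det_blk_low`, `det_blk_up`). -/
def S_P2 : Prop := ∀ (n : ℕ) (h : 1 + (n + 2) = n + 3) (A : Matrix (Fin (n + 3)) (Fin (n + 3)) ℤ),
  A.det = 1 →
  ∃ (l : Matrix (Fin (n + 3)) (Fin (n + 3)) ℤ) (y : Matrix (Fin 1) (Fin (n + 2)) ℤ)
    (c : Matrix (Fin (n + 2)) (Fin 1) ℤ) (z : Matrix (Fin 1) (Fin (n + 2)) ℤ)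
    (A' : Matrix (Fin (n + 2)) (Fin (n + 2)) ℤ),
    Lo l ∧ A'.det = 1 ∧
    A = l * blk h 1 y 0 1 * blk h 1 0 c 1 * blk h 1 0 0 A' * blk h 1 z 0 1

/-- IND (reduction to SL_2), from P2.
PROOF. Induction on `m`.  `m = 0`: `l1 = u1 = l2 = u2 = 1`, `B = A` (`blk h 1 0 0 B` with
`0 + 2 = 2`: use `blk1_apply`, or `subst`).  Step `m + 1`, `N = m + 3`: P2 with `n = m` gives
`A = l F(y) E(c) D(A') F(z)`, `F(y) = blk 1 y 0 1`, `E(c) = blk 1 0 c 1`, `D(A') = blk 1 0 0 A'`,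
and by induction `A' = l1 u1 l2 D'(B) u2` on `Fin (m + 2)`.  `D` is multiplicative,
`E(c) D(l1) D(u1) = D(l1) D(u1) E(c')` with `c' = u1^-1 l1^-1 c` and
`F(y) D(l1) = D(l1) F(y l1)`, so
`A = [l D(l1)] [F(y l1) D(u1)] [E(c') D(l2)] D(D'(B)) [D(u2) F(z)]`
and `D(D'(B))` is the block matrix of `B` again (`blk_assoc`, with `1 + m` instead of `m + 1`:
`subst`/`omega` equality proofs, `blk1_apply` if needed). -/
def S_IND : Prop := ∀ (m N : ℕ) (h : m + 2 = N) (A : Matrix (Fin N) (Fin N) ℤ), A.det = 1 →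
  ∃ (l1 u1 l2 u2 : Matrix (Fin N) (Fin N) ℤ) (B : Matrix (Fin 2) (Fin 2) ℤ),
    Lo l1 ∧ Up u1 ∧ Lo l2 ∧ Up u2 ∧ B.det = 1 ∧ A = l1 * u1 * l2 * blk h 1 0 0 B * u2

/-- BASE, from J, A4, NTD.
PROOF. `m = 4`: NTD gives `B = lo p * S * up q * lo l * up u`, A4 gives `X (2x4), Y (4x2)` with
`S = 1 + X Y` and `1 + Y X = l1 u1 l2 u2`; J with `m = 4, k = 2, M1 = 1, M2 = B` gives
`LU2 (blk _ 1 0 0 B)`.  General `m ≥ 4`: `blk_assoc` with `a = m - 4`, `b = 4`: if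
`blk _ 1_4 0 0 B = l1 u1 l2 u2` then `blk _ 1_(m-4) 0 0 (...) = D(l1) D(u1) D(l2) D(u2)`. -/
def S_BASE : Prop := ∀ (m N : ℕ) (h : m + 2 = N) (B : Matrix (Fin 2) (Fin 2) ℤ), 4 ≤ m →
  B.det = 1 → LU2 (blk h 1 0 0 B)

/-- MAIN, from IND and BASE.
PROOF. Let `A' = A⁻¹` (det 1).  IND: `A' = l1 u1 l2 (blk 1 0 0 B) u2`, BASE:
`blk 1 0 0 B = l3 u3 l4 u4`, so `A' = l1 u1 (l2 l3) u3 l4 (u4 u2)`; take inverses
(`Lo_inv`, `Up_inv`) in the reverse order. -/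
def S_MAIN : Prop := ∀ n : ℕ, 6 ≤ n → ∀ A : Matrix (Fin n) (Fin n) ℤ, A.det = 1 →
  ∃ u1 l1 u2 l2 u3 l3 : Matrix (Fin n) (Fin n) ℤ, Up u1 ∧ Lo l1 ∧ Up u2 ∧ Lo l2 ∧ Up u3 ∧ Lo l3 ∧
    A = u1 * l1 * u2 * l2 * u3 * l3

end Pool.Agent.T2h20.UT
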