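import Pool.Agent.T2h20.UT.Stm

namespace Pool.Agent.T2h20.UT

open Matrix

theorem t_J : S_J := by
  intro m k N h M1 M2 X Y l1 u1 l2 u2 p q l u hl1 hu1 hl2 hu2 hp hq hl hu hM1 hM2
  obtain ⟨l1', hl1', e1, e1'⟩ := Lo_inv hl1
  obtain ⟨u1', hu1', e2, e2'⟩ := Up_inv hu1
  obtain ⟨l2', hl2', e3, e3'⟩ := Lo_inv hl2
  obtain ⟨u2', hu2', e4, e4'⟩ := Up_inv hu2
  obtain ⟨p', hp', e5, e5'⟩ := Lo_inv hp
  obtain ⟨q', hq', e6, e6'⟩ := Up_inv hq
  -- the inverse of N
  have hN1 : (u2' * l2' * u1' * l1') * (l1 * u1 * l2 * u2) = 1 := by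
    calc (u2' * l2' * u1' * l1') * (l1 * u1 * l2 * u2)
        = u2' * l2' * u1' * (l1' * l1) * u1 * l2 * u2 := by simp only [Matrix.mul_assoc]
      _ = u2' * l2' * (u1' * u1) * l2 * u2 := by rw [e1']; simp only [Matrix.mul_assoc, Matrix.mul_one, Matrix.one_mul]
      _ = u2' * (l2' * l2) * u2 := by rw [e2']; simp only [Matrix.mul_assoc, Matrix.mul_one, Matrix.one_mul]
      _ = u2' * u2 := by rw [e3']; simp only [Matrix.mul_assoc, Matrix.mul_one, Matrix.one_mul]
      _ = 1 := e4'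
  set N' := u2' * l2' * u1' * l1' with hN'
  have hK0 : (N' * (1 + Y * X)) * M1 = 1 := by
    rw [Matrix.mul_assoc, hM1, hN1]
  have hK1 : M1 * (N' * (1 + Y * X)) = 1 := mul_eq_one_comm.mp hK0
  have hK2 : (M1 * N') * (1 + Y * X) = 1 := by rw [Matrix.mul_assoc]; exact hK1
  have hK3 : (M1 * N') * (Y * (1 + X * Y)) = Y := by
    have : Y * (1 + X * Y) = (1 + Y * X) * Y := by
      rw [Matrix.mul_add, Matrix.add_mul, Matrix.mul_one, Matrix.one_mul, Matrix.mul_assoc]
    rw [this, ← Matrix.mul_assoc, hK2, Matrix.one_mul]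
  set W := q' * X * M1 * u2' with hW
  set V := l2' * u1' * l1' * Y * (1 + X * Y) * q * l * u with hV
  -- key: the product
  have hWV : W * V + l * u = q' * (1 + X * Y) * q * l * u := by
    have h1 : W * V = q' * X * ((M1 * N') * (Y * (1 + X * Y))) * q * l * u := by
      rw [hW, hV, hN']; simp only [Matrix.mul_assoc]
    rw [h1, hK3]
    have h2 : l * u = q' * q * l * u := by rw [e6', Matrix.one_mul]
    conv_lhs => rw [h2]
    simp only [Matrix.mul_add, Matrix.add_mul, Matrix.mul_one, Matrix.mul_assoc]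
    rw [add_comm]
  have hleft : blk h u1' (u1' * l1' * Y * p' * p) 0 q' * blk h l1' 0 (X) p' =
      blk h (u1' * l1' * (1 + Y * X)) (u1' * l1' * Y * p') (q' * X) (q' * p') := by
    rw [blk_mul]
    refine blk_inj h ?_ ?_ ?_ ?_
    · have : u1' * l1' * Y * p' * p * X = u1' * l1' * Y * X := by
        rw [Matrix.mul_assoc (u1' * l1' * Y) p' p, e5', Matrix.mul_one]
      rw [this, Matrix.mul_add, Matrix.mul_one]
      simp only [Matrix.mul_assoc]
    · rw [Matrix.mul_zero, zero_add, Matrix.mul_assoc (u1' * l1' * Y) p' p, e5', Matrix.mul_one]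
    · rw [Matrix.zero_mul, zero_add]
    · rw [Matrix.mul_zero, zero_add]
  have hGN : u1' * l1' * (1 + Y * X) * M1 = l2 * u2 := by
    rw [Matrix.mul_assoc (u1' * l1') _ M1, hM1]
    calc u1' * l1' * (l1 * u1 * l2 * u2) = u1' * (l1' * l1) * u1 * l2 * u2 := by
          simp only [Matrix.mul_assoc]
      _ = (u1' * u1) * l2 * u2 := by rw [e1', Matrix.mul_one]
      _ = l2 * u2 := by rw [e2', Matrix.one_mul]
  have hpM2 : p' * M2 = (1 + X * Y) * q * l * u := by
    rw [hM2]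
    calc p' * (p * (1 + X * Y) * q * l * u) = (p' * p) * (1 + X * Y) * q * l * u := by
          simp only [Matrix.mul_assoc]
      _ = _ := by rw [e5', Matrix.one_mul]
  have hmid : blk h (u1' * l1' * (1 + Y * X)) (u1' * l1' * Y * p') (q' * X) (q' * p') *
      blk h M1 0 0 M2 = blk h l2 0 W l * blk h u2 V 0 u := by
    rw [blk_mul, blk_mul]
    refine blk_inj h ?_ ?_ ?_ ?_
    · rw [Matrix.mul_zero, Matrix.zero_mul, add_zero, add_zero, hGN]
    · rw [Matrix.mul_zero, zero_add, Matrix.zero_mul, add_zero, Matrix.mul_assoc _ p' M2, hpM2, hV]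
      calc u1' * l1' * Y * ((1 + X * Y) * q * l * u)
          = (l2 * l2') * u1' * l1' * Y * (1 + X * Y) * q * l * u := by
            rw [e3, Matrix.one_mul]; simp only [Matrix.mul_assoc]
        _ = _ := by simp only [Matrix.mul_assoc]
    · rw [Matrix.mul_zero, Matrix.mul_zero, add_zero, add_zero, hW]
      rw [Matrix.mul_assoc (q' * X * M1) u2' u2, e4', Matrix.mul_one]
    · rw [Matrix.mul_zero, zero_add, hWV, Matrix.mul_assoc q' p' M2, hpM2]
      simp only [Matrix.mul_assoc]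
  have hall : blk h u1' (u1' * l1' * Y * p' * p) 0 q' * blk h l1' 0 (X) p' * blk h M1 0 0 M2 =
      blk h l2 0 W l * blk h u2 V 0 u := by rw [hleft, hmid]
  have hUa : Up (blk h u1' (u1' * l1' * Y * p' * p) 0 q') := Up_blk h hu1' hq'
  have hLa : Lo (blk h l1' 0 X p') := Lo_blk h hl1' hp'
  obtain ⟨Ui, hUi, f1, f1'⟩ := Up_inv hUa
  obtain ⟨Li, hLi, f2, f2'⟩ := Lo_inv hLa
  refine ⟨Li, Ui, _, _, hLi, hUi, Lo_blk h (C := W) hl2 hl, Up_blk h (B := V) hu2 hu, ?_⟩
  rw [Matrix.mul_assoc (Li * Ui), ← hall]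
  calc blk h M1 0 0 M2 = (Li * blk h l1' 0 X p') * blk h M1 0 0 M2 := by rw [f2', Matrix.one_mul]
    _ = Li * (Ui * blk h u1' (u1' * l1' * Y * p' * p) 0 q') * blk h l1' 0 X p' * blk h M1 0 0 M2 := by
        rw [f1', Matrix.mul_one]
    _ = _ := by simp only [Matrix.mul_assoc]

end Pool.Agent.T2h20.UT
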